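import Mathlib
import Pool.Agent.Helper539.AuerWalk

/-!
# Coherent injections, with finite differences
-/

set_option autoImplicit false

namespace Pool.Agent.TH576.TAM

open Set Pool.Agent.Helper539.Auer

variable {W : Type*} [LinearOrder W] [WellFoundedLT W]

theorem exists_coh (hW : ∀ a : W, (Iio a).Countable) :
    ∃ e : W → W → ℕ, (∀ b, InjOn (e b) (Iio b)) ∧
      ∀ a b : W, {ξ | ξ < a ∧ ξ < b ∧ e a ξ ≠ e b ξ}.Finite := by
  classical
  obtain ⟨c, hc⟩ := exists_cofinal hW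
  obtain ⟨ρ, hρ⟩ := exists_rho c hc
  have hfin := rho_finite c hc ρ hρ
  have hcoh := rho_coherent c hc ρ hρ
  let e : W → W → ℕ := fun a ξ => Nat.pair (ρ a ξ) {η | η < ξ ∧ ρ a η = ρ a ξ}.ncard
  have key : ∀ a b : W, a < b → {ξ | ξ < a ∧ e a ξ ≠ e b ξ}.Finite := by
    intro a b hab
    set M : Set W := {ξ | ξ < a ∧ ρ a ξ ≠ ρ b ξ} with hM
    have hMf : M.Finite := hcoh b a hab
    set V : Set ℕ := (ρ a '' M) ∪ (ρ b '' M) with hV
    have hVf : V.Finite := (hMf.image _).union (hMf.image _)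
    obtain ⟨m, hm⟩ := hVf.bddAbove
    refine (hMf.union (hfin a m)).subset ?_
    rintro ξ ⟨hξa, hne⟩
    by_contra hcon
    simp only [mem_union, not_or] at hcon
    obtain ⟨h1, h2⟩ := hcon
    have h3 : ρ a ξ = ρ b ξ := by
      by_contra h
      exact h1 ⟨hξa, h⟩
    have h4 : ρ a ξ ∉ V := by
      intro h
      exact h2 ⟨hξa, hm h⟩
    apply hne
    have h5 : {η | η < ξ ∧ ρ a η = ρ a ξ} = {η | η < ξ ∧ ρ b η = ρ b ξ} := by
      ext η
      simp only [mem_setOf_eq]
      constructor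
      · rintro ⟨h6, h7⟩
        refine ⟨h6, ?_⟩
        by_cases h8 : η ∈ M
        · exact absurd (Or.inl ⟨η, h8, h7⟩) h4
        · have : ρ a η = ρ b η := by
            by_contra h
            exact h8 ⟨h6.trans hξa, h⟩
          rw [← this, h7, h3]
      · rintro ⟨h6, h7⟩
        refine ⟨h6, ?_⟩
        by_cases h8 : η ∈ M
        · exact absurd (Or.inr ⟨η, h8, h7.trans h3.symm⟩) h4
        · have : ρ a η = ρ b η := by
            by_contra h
            exact h8 ⟨h6.trans hξa, h⟩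
          rw [this, h7, h3]
    simp only [e]
    rw [h5, h3]
  refine ⟨e, ?_, ?_⟩
  · intro a ξ hξ ξ' hξ' h
    simp only [e, Nat.pair_eq_pair] at h
    obtain ⟨h1, h2⟩ := h
    have hfinset : ∀ ζ, ζ < a → {η | η < ζ ∧ ρ a η = ρ a ζ}.Finite := by
      intro ζ hζ
      refine (hfin a (ρ a ζ)).subset ?_
      intro η hη
      exact ⟨hη.1.trans hζ, hη.2.le⟩
    have aux : ∀ x y, x < a → y < a → x < y → ρ a x = ρ a y →
        {η | η < x ∧ ρ a η = ρ a x}.ncard < {η | η < y ∧ ρ a η = ρ a y}.ncard := by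
      intro x y hx hy hxy hr
      apply Set.ncard_lt_ncard _ (hfinset y hy)
      refine ⟨?_, ?_⟩
      · intro η hη
        exact ⟨hη.1.trans hxy, hη.2.trans hr⟩
      · intro hsub
        have : x ∈ {η | η < x ∧ ρ a η = ρ a x} := hsub ⟨hxy, hr⟩
        exact lt_irrefl _ this.1
    rcases lt_trichotomy ξ ξ' with hlt | heq | hgt
    · exact absurd h2 (ne_of_lt (aux ξ ξ' hξ hξ' hlt h1))
    · exact heq
    · exact absurd h2.symm (ne_of_lt (aux ξ' ξ hξ' hξ hgt h1.symm))
  · intro a b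
    rcases lt_trichotomy a b with h | h | h
    · exact (key a b h).subset fun ξ hξ => ⟨hξ.1, hξ.2.2⟩
    · subst h
      convert Set.finite_empty
      ext ξ
      simp
    · exact (key b a h).subset fun ξ hξ => ⟨hξ.2.1, hξ.2.2.symm⟩

end Pool.Agent.TH576.TAM
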