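import Mathlib

/-!
# The statement (TAM) and its form for families of finite sets
-/

set_option autoImplicit false

namespace Pool.Agent.TH576.TAM

open Set TopologicalSpace

universe u

/-- Every family of pairwise disjoint nonempty open sets is countable. -/
def CCC (X : Type u) [TopologicalSpace X] : Prop :=
  ∀ U : Set (Set X), (∀ A ∈ U, IsOpen A ∧ A.Nonempty) → U.PairwiseDisjoint id → U.Countable

/-- Every finite subfamily has nonempty intersection. -/
def Centered {X : Type u} (U : Set (Set X)) : Prop :=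
  ∀ F : Finset (Set X), (F : Set (Set X)) ⊆ U → (⋂₀ (F : Set (Set X))).Nonempty

set_option linter.dupNamespace false in
/-- (TAM): in every Hausdorff space with countable Suslin number every uncountable family of
nonempty open sets has an uncountable centered subfamily. -/
def TAM : Prop :=
  ∀ (X : Type u) [TopologicalSpace X] [T2Space X], CCC X →
    ∀ U : Set (Set X), (∀ A ∈ U, IsOpen A ∧ A.Nonempty) → ¬ U.Countable →
      ∃ V ⊆ U, ¬ V.Countable ∧ Centered V

section

variable {S : Type u} (K : Set (Finset S))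

/-- all finite subsets of `M` are in `K` -/
def Hom (M : Set S) : Prop := ∀ F : Finset S, (F : Set S) ⊆ M → F ∈ K

/-- the maximal homogeneous sets -/
def Mx : Type u := {M : Set S // Maximal (fun M => M ∈ {M | Hom K M}) M}

/-- the basic open sets -/
def bas (a : Finset S) : Set (Mx K) := {M | (a : Set S) ⊆ M.1}

instance : TopologicalSpace (Mx K) := generateFrom (range (bas K))

theorem isOpen_bas (a : Finset S) : IsOpen (bas K a) := isOpen_generateFrom_of_mem ⟨a, rfl⟩

theorem bas_inter [DecidableEq S] (a b : Finset S) : bas K a ∩ bas K b = bas K (a ∪ b) := by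
  ext M
  simp [bas]

theorem isTopologicalBasis_bas : IsTopologicalBasis (range (bas K)) := by
  classical
  refine ⟨?_, ?_, rfl⟩
  · rintro _ ⟨a, rfl⟩ _ ⟨b, rfl⟩ M hM
    exact ⟨bas K (a ∪ b), ⟨_, rfl⟩, by rw [← bas_inter]; exact hM, by rw [← bas_inter]⟩
  · rw [eq_univ_iff_forall]
    intro M
    exact ⟨bas K ∅, ⟨_, rfl⟩, by simp [bas]⟩

theorem exists_maximal {M : Set S} (hM : Hom K M) : ∃ N : Mx K, M ⊆ N.1 := by
  obtain ⟨N, h1, h2⟩ := zorn_subset_nonempty {M | Hom K M} (by
    intro c hc hch hne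
    refine ⟨⋃₀ c, ?_, fun s hs => subset_sUnion_of_mem hs⟩
    intro F hF
    obtain ⟨s, hs, hFs⟩ := DirectedOn.exists_mem_subset_of_finset_subset_biUnion
      (α := S) (ι := Set S) (f := id) (c := c) hne hch.directedOn (s := F) (by
        simpa [sUnion_eq_biUnion] using hF)
    exact hc hs F hFs) M hM
  exact ⟨⟨N, h2⟩, h1⟩

instance : T2Space (Mx K) := by
  classical
  refine ⟨?_⟩
  intro M N hMN
  have key : ∀ M N : Mx K, ¬ M.1 ⊆ N.1 → ∃ u v : Set (Mx K), IsOpen u ∧ IsOpen v ∧ M ∈ u ∧ N ∈ v ∧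
      Disjoint u v := by
    intro M N h
    obtain ⟨s, hs, hs'⟩ := not_subset.1 h
    have h1 : ¬ Hom K (insert s N.1) := by
      intro h2
      exact hs' (N.2.2 h2 (subset_insert _ _) (mem_insert _ _))
    unfold Hom at h1
    push Not at h1
    obtain ⟨F, hF, hFK⟩ := h1
    refine ⟨bas K {s}, bas K (F.erase s), isOpen_bas K _, isOpen_bas K _, by simpa [bas] using hs,
      ?_, ?_⟩
    · intro t ht
      rw [Finset.mem_coe, Finset.mem_erase] at ht
      rcases hF ht.2 with h3 | h3
      · exact absurd h3 ht.1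
      · exact h3
    · rw [Set.disjoint_iff]
      rintro L ⟨h3, h4⟩
      apply hFK
      apply L.2.1
      intro t ht
      by_cases hts : t = s
      · subst hts
        exact h3 (by simp)
      · exact h4 (by simp [hts, Finset.mem_coe.1 ht])
  by_cases h : M.1 ⊆ N.1
  · have h' : ¬ N.1 ⊆ M.1 := by
      intro h2
      exact hMN (Subtype.ext (Subset.antisymm h h2))
    obtain ⟨u, v, h1, h2, h3, h4, h5⟩ := key N M h'
    exact ⟨v, u, h2, h1, h4, h3, h5.symm⟩
  · exact key M N h

end

/-- The form of (TAM) for families of finite sets. -/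
theorem prec_finset (hT : TAM.{u}) {S : Type u} [DecidableEq S] (K : Set (Finset S))
    (hdown : ∀ F ∈ K, ∀ G ⊆ F, G ∈ K)
    (hccc : ∀ J ⊆ K, ¬ J.Countable → ∃ a ∈ J, ∃ b ∈ J, a ≠ b ∧ a ∪ b ∈ K)
    (T : Set S) (hTu : ¬ T.Countable) (hTK : ∀ s ∈ T, {s} ∈ K) :
    ∃ T' ⊆ T, ¬ T'.Countable ∧ ∀ F : Finset S, (F : Set S) ⊆ T' → F ∈ K := by
  classical
  have hc : CCC (Mx K) := by
    intro 𝒰 h𝒰 hd
    by_contra hcon
    have h1 : ∀ A ∈ 𝒰, ∃ a : Finset S, bas K a ⊆ A ∧ (bas K a).Nonempty := by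
      intro A hA
      obtain ⟨M, hM⟩ := (h𝒰 A hA).2
      obtain ⟨_, ⟨a, rfl⟩, h2, h3⟩ := (isTopologicalBasis_bas K).exists_subset_of_mem_open hM
        (h𝒰 A hA).1
      exact ⟨a, h3, ⟨M, h2⟩⟩
    choose! f hf1 hf2 using h1
    have hinj : InjOn f 𝒰 := by
      intro A hA B hB hAB
      by_contra hne
      obtain ⟨M, hM⟩ := hf2 A hA
      exact (Set.disjoint_left.1 (hd hA hB hne)) (hf1 A hA hM) (hf1 B hB (hAB ▸ hM))
    obtain ⟨_, ⟨A, hA, rfl⟩, _, ⟨B, hB, rfl⟩, hne, hK⟩ := hccc (f '' 𝒰) (by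
      rintro _ ⟨A, hA, rfl⟩
      obtain ⟨M, hM⟩ := hf2 A hA
      exact M.2.1 _ hM) (fun h => hcon (by
        exact (countable_of_injective_of_countable_image hinj h)))
    obtain ⟨M, hM⟩ := exists_maximal K (M := ((f A ∪ f B : Finset S) : Set S))
      (fun F hF => hdown _ hK F (by simpa [← Finset.coe_subset] using hF))
    have hAB : A ≠ B := fun h => hne (by rw [h])
    rw [Finset.coe_union] at hM
    exact (Set.disjoint_left.1 (hd hA hB hAB)) (hf1 A hA (subset_union_left.trans hM))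
      (hf1 B hB (subset_union_right.trans hM))
  have hne : ∀ s ∈ T, (bas K {s}).Nonempty := by
    intro s hs
    obtain ⟨M, hM⟩ := exists_maximal K (M := (({s} : Finset S) : Set S))
      (fun F hF => hdown _ (hTK s hs) F (by simpa [← Finset.coe_subset] using hF))
    exact ⟨M, hM⟩
  by_cases hcount : ((fun s => bas K {s}) '' T).Countable
  · -- a big fibre
    have : ∃ A ∈ (fun s => bas K {s}) '' T, ¬ {s ∈ T | bas K {s} = A}.Countable := by
      by_contra hcon
      push Not at hcon
      apply hTu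
      refine (hcount.biUnion hcon).mono ?_
      intro s hs
      exact mem_biUnion (mem_image_of_mem _ hs) ⟨hs, rfl⟩
    obtain ⟨A, ⟨s0, hs0, rfl⟩, hA⟩ := this
    obtain ⟨M, hM⟩ := hne s0 hs0
    refine ⟨_, fun s hs => hs.1, hA, ?_⟩
    intro F hF
    apply M.2.1
    intro s hs
    have h2 : M ∈ bas K {s} := by rw [(hF hs).2]; exact hM
    exact h2 (by simp)
  · obtain ⟨V, hV1, hV2, hV3⟩ := hT (Mx K) hc _ (by
      rintro _ ⟨s, hs, rfl⟩
      exact ⟨isOpen_bas K _, hne s hs⟩) hcount
    refine ⟨{s ∈ T | bas K {s} ∈ V}, fun s hs => hs.1, ?_, ?_⟩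
    · intro h
      apply hV2
      refine (h.image fun s => bas K {s}).mono ?_
      intro A hA
      obtain ⟨s, hs, rfl⟩ := hV1 hA
      exact ⟨s, ⟨hs, hA⟩, rfl⟩
    · intro F hF
      obtain ⟨M, hM⟩ := hV3 (F.image fun s => bas K {s}) (by
        intro A hA
        rw [Finset.mem_coe, Finset.mem_image] at hA
        obtain ⟨s, hs, rfl⟩ := hA
        exact (hF hs).2)
      apply M.2.1
      intro s hs
      have h2 : M ∈ bas K {s} := hM _ (by
        rw [Finset.mem_coe, Finset.mem_image]; exact ⟨s, hs, rfl⟩)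
      exact h2 (by simp)

/-- `P` has the countable chain condition: every uncountable set has two different compatible
elements. -/
def PCCC (P : Type u) [Preorder P] : Prop :=
  ∀ A : Set P, ¬ A.Countable → ∃ a ∈ A, ∃ b ∈ A, a ≠ b ∧ ∃ q, q ≤ a ∧ q ≤ b

/-- The precalibre property. -/
theorem prec (hT : TAM.{u}) {P : Type u} [Preorder P] (hP : PCCC P) {I : Type u} (x : I → P)
    (T : Set I) (hTu : ¬ T.Countable) :
    ∃ T' ⊆ T, ¬ T'.Countable ∧ ∀ F : Finset I, (F : Set I) ⊆ T' → ∃ q, ∀ i ∈ F, q ≤ x i := by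
  classical
  obtain ⟨i0, -⟩ : T.Nonempty := by
    rw [nonempty_iff_ne_empty]
    rintro rfl
    exact hTu countable_empty
  have : Nonempty P := ⟨x i0⟩
  have := prec_finset hT {F : Finset I | ∃ q, ∀ i ∈ F, q ≤ x i}
    (by
      rintro F ⟨q, hq⟩ G hG
      exact ⟨q, fun i hi => hq i (hG hi)⟩)
    (by
      intro J hJ hJc
      have hJ' : ∀ F ∈ J, ∃ q, ∀ i ∈ F, q ≤ x i := fun F hF => hJ hF
      choose! q hq using hJ'
      by_cases hinj : InjOn q J
      · obtain ⟨_, ⟨a, ha, rfl⟩, _, ⟨b, hb, rfl⟩, hne, r, hr1, hr2⟩ := hP (q '' J)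
          (fun h => hJc (countable_of_injective_of_countable_image hinj h))
        refine ⟨a, ha, b, hb, fun h => hne (by rw [h]), r, ?_⟩
        intro i hi
        rcases Finset.mem_union.1 hi with h | h
        · exact hr1.trans (hq a ha i h)
        · exact hr2.trans (hq b hb i h)
      · unfold InjOn at hinj
        push Not at hinj
        obtain ⟨a, ha, b, hb, hab, hne⟩ := hinj
        refine ⟨a, ha, b, hb, hne, q a, ?_⟩
        intro i hi
        rcases Finset.mem_union.1 hi with h | h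
        · exact hq a ha i h
        · rw [hab]; exact hq b hb i h)
    T hTu (fun s _ => ⟨x s, by simp⟩)
  exact this

/-- The precalibre property for finitely many families at once. -/
theorem prec_many (hT : TAM.{u}) {P : Type u} [Preorder P] (hP : PCCC P) {I : Type u}
    {C : Type*} (Cs : Finset C) (x : C → I → P) (T : Set I) (hTu : ¬ T.Countable) :
    ∃ T' ⊆ T, ¬ T'.Countable ∧ ∀ c ∈ Cs, ∀ F : Finset I, (F : Set I) ⊆ T' →
      ∃ q, ∀ i ∈ F, q ≤ x c i := by
  classical
  induction Cs using Finset.induction_on with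
  | empty => exact ⟨T, Subset.rfl, hTu, by simp⟩
  | insert c Cs hc ih =>
    obtain ⟨T1, h1, h2, h3⟩ := ih
    obtain ⟨T2, h4, h5, h6⟩ := prec hT hP (x c) T1 h2
    refine ⟨T2, h4.trans h1, h5, ?_⟩
    intro d hd F hF
    rcases Finset.mem_insert.1 hd with rfl | h
    · exact h6 F hF
    · exact h3 d h F (hF.trans h4)

end Pool.Agent.TH576.TAM
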