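import Mathlib
import Pool.Agent.H916R3.HFC.Delta
import Pool.Agent.TH576.TAM.Coh
import Pool.Agent.TH576.TAM.Prec

/-!
# (TAM) implies that posets of size `ℵ₁` with the countable chain condition are σ-centered
-/

set_option autoImplicit false

namespace Pool.Agent.TH576.TAM

open Set

universe u

section Basic

variable {W : Type u} [LinearOrder W]

/-- a countable set has an upper bound in every uncountable set -/
theorem exists_above (hW : ∀ a : W, (Iio a).Countable) {X C : Set W} (hX : ¬ X.Countable)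
    (hC : C.Countable) : ∃ x ∈ X, ∀ c ∈ C, c < x := by
  by_contra hcon
  push Not at hcon
  apply hX
  refine (hC.biUnion (t := fun c _ => Iic c) fun c _ => ?_).mono ?_
  · rw [← Iio_insert]
    exact (hW c).insert c
  · intro x hx
    obtain ⟨c, hc, hcx⟩ := hcon x hx
    exact mem_biUnion hc hcx

/-- choosing two members of a delta-system in a convenient position -/
theorem pick (hW : ∀ a : W, (Iio a).Countable) {J : Set (Finset W)} (hJ : ¬ J.Countable)
    (R : Finset W) (hR : ∀ i ∈ J, ∀ j ∈ J, i ≠ j → ∀ t ∈ i, t ∈ j → t ∈ R) :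
    ∃ b ∈ J, ∀ E : Set W, E.Finite → ∃ a ∈ J, a ≠ b ∧
      (∀ α ∈ a, α ∉ R → ∀ β ∈ b, β ∉ R → α < β) ∧ ∀ α ∈ a, α ∉ R → α ∉ E := by
  classical
  have hinf : J.Infinite := fun h => hJ h.countable
  obtain ⟨f, hfJ, hfi⟩ : ∃ f : ℕ → Finset W, (∀ n, f n ∈ J) ∧ Function.Injective f := by
    have := hinf.to_subtype
    obtain ⟨g⟩ := Infinite.natEmbedding (α := J) |> fun g => (⟨g⟩ : Nonempty (ℕ ↪ J))
    exact ⟨fun n => (g n).1, fun n => (g n).2, fun m n h => g.injective (Subtype.ext h)⟩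
  set C : Set W := ⋃ n, (f n : Set W) with hCdef
  have hC : C.Countable := countable_iUnion fun n => (f n).countable_toSet
  have hD : (⋃ c ∈ C, Iic c).Countable := hC.biUnion fun c _ => by
    rw [← Iio_insert]
    exact (hW c).insert c
  have hbad : {b ∈ J | b ∈ range f ∨ ∃ t ∈ b, t ∉ R ∧ t ∈ ⋃ c ∈ C, Iic c}.Countable := by
    refine ((countable_range f).union (hD.biUnion
      (t := fun t _ => {b ∈ J | t ∈ b ∧ t ∉ R}) fun t _ => ?_)).mono ?_
    · refine Set.Subsingleton.countable ?_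
      rintro b ⟨hb, h1, h2⟩ b' ⟨hb', h1', -⟩
      by_contra hne
      exact h2 (hR b hb b' hb' hne t h1 h1')
    · rintro b ⟨hb, h | ⟨t, h1, h2, h3⟩⟩
      · exact Or.inl h
      · exact Or.inr (mem_biUnion h3 ⟨hb, h1, h2⟩)
  obtain ⟨b, hb, hb2⟩ : ∃ b ∈ J, b ∉ {b ∈ J | b ∈ range f ∨ ∃ t ∈ b, t ∉ R ∧ t ∈ ⋃ c ∈ C, Iic c} := by
    by_contra hcon
    push Not at hcon
    exact hJ (hbad.mono fun b hb => hcon b hb)
  refine ⟨b, hb, ?_⟩
  intro E hE
  obtain ⟨n, hn⟩ : ∃ n, ∀ α ∈ f n, α ∉ R → α ∉ E := by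
    by_contra hcon
    push Not at hcon
    choose g hg1 hg2 hg3 using hcon
    have : (range g).Finite := hE.subset (by rintro _ ⟨n, rfl⟩; exact hg3 n)
    have hgi : Function.Injective g := by
      intro m n hmn
      by_contra hne
      exact hg2 m (hR (f m) (hfJ m) (f n) (hfJ n) (fun h => hne (hfi h)) _ (hg1 m)
        (by rw [hmn]; exact hg1 n))
    exact Set.infinite_range_of_injective hgi this
  refine ⟨f n, hfJ n, ?_, ?_, hn⟩
  · rintro rfl
    exact hb2 ⟨hb, Or.inl ⟨n, rfl⟩⟩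
  · intro α hα _ β hβ hβR
    by_contra hcon
    apply hb2
    refine ⟨hb, Or.inr ⟨β, hβ, hβR, ?_⟩⟩
    have : α ∈ C := mem_iUnion.2 ⟨n, hα⟩
    exact mem_biUnion this (not_lt.1 hcon)

end Basic

section Main

variable {W : Type u} [LinearOrder W] [WellFoundedLT W]

/-- the set of indices with a given colour -/
def Hs (e : W → W → ℕ) (a : Set W) (m l : ℕ) : Set W :=
  {ξ | ∃ α ∈ a, ∃ β ∈ a, α < β ∧ ξ < α ∧ e β α = m ∧ e α ξ = l ∧ e β ξ ≤ m}

theorem Hs_mono (e : W → W → ℕ) {a b : Set W} (h : a ⊆ b) (m l : ℕ) : Hs e a m l ⊆ Hs e b m l := by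
  rintro ξ ⟨α, hα, β, hβ, h1⟩
  exact ⟨α, h hα, β, h hβ, h1⟩

/-- (TAM) implies that every `ω₁`-sequence of elements of a poset with the countable chain
condition is a countable union of centered pieces. -/
theorem sigma_centered (hT : TAM.{u}) (hW : ∀ a : W, (Iio a).Countable)
    (hWu : ¬ (univ : Set W).Countable) {P : Type u} [Preorder P] (hP : PCCC P) (p : W → P) :
    ∃ c : W → ℕ, ∀ (n : ℕ) (F : Finset W), (∀ ξ ∈ F, c ξ = n) → ∃ q, ∀ ξ ∈ F, q ≤ p ξ := by
  classical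
  obtain ⟨e, he1, he2⟩ := exists_coh hW
  obtain ⟨w0, -⟩ : (univ : Set W).Nonempty := by
    rw [nonempty_iff_ne_empty]
    intro h
    exact hWu (h ▸ countable_empty)
  have hPne : Nonempty P := ⟨p w0⟩
  set K : Set (Finset W) := {a | ∀ m l, ∃ q, ∀ ξ ∈ Hs e a m l, q ≤ p ξ} with hK
  have hdown : ∀ F ∈ K, ∀ G ⊆ F, G ∈ K := by
    intro F hF G hG m l
    obtain ⟨q, hq⟩ := hF m l
    exact ⟨q, fun ξ hξ => hq ξ (Hs_mono e (by exact_mod_cast hG) m l hξ)⟩
  have hccc : ∀ J ⊆ K, ¬ J.Countable → ∃ a ∈ J, ∃ b ∈ J, a ≠ b ∧ a ∪ b ∈ K := by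
    intro J hJK hJ
    -- delta-system
    obtain ⟨J1, R, hJ1, hJ1u, hR1, hR2⟩ := Pool.Agent.H916R3.HFC.delta_system
      (fun a : Finset W => a) J hJ
    -- bound of the values
    obtain ⟨N, hN⟩ := Pool.Agent.H916R3.HFC.uncountable_fiber
      (fun a : Finset W => (a ×ˢ a).sup fun x => e x.2 x.1 + 1) J1 hJ1u
    set J2 := {a ∈ J1 | ((a ×ˢ a).sup fun x => e x.2 x.1 + 1) = N} with hJ2
    have hN' : ∀ a ∈ J2, ∀ α ∈ a, ∀ β ∈ a, e β α < N := by
      intro a ha α hα β hβ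
      have h1 : e β α + 1 ≤ (a ×ˢ a).sup fun x => e x.2 x.1 + 1 :=
        Finset.le_sup (f := fun x : W × W => e x.2 x.1 + 1) (b := (α, β))
          (Finset.mem_product.2 ⟨hα, hβ⟩)
      rw [ha.2] at h1
      omega
    -- the colours
    have hfin : ∀ a : Finset W, {c : ℕ × ℕ | (Hs e a c.1 c.2).Nonempty}.Finite := by
      intro a
      have h1 : (⋃ α ∈ a, ⋃ β ∈ a, {ξ | ξ < β ∧ e β ξ ≤ e β α}).Finite := by
        refine Set.Finite.biUnion a.finite_toSet fun α _ =>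
          Set.Finite.biUnion a.finite_toSet fun β _ => ?_
        refine Set.Finite.of_finite_image (f := e β)
          ((Set.finite_Iic (e β α)).subset ?_) ((he1 β).mono fun ξ hξ => hξ.1)
        rintro _ ⟨ξ, hξ, rfl⟩
        exact hξ.2
      have h2 : ((fun x : (W × W) × W => (e x.1.2 x.1.1, e x.1.1 x.2)) ''
          (((a : Set W) ×ˢ (a : Set W)) ×ˢ
            (⋃ α ∈ a, ⋃ β ∈ a, {ξ | ξ < β ∧ e β ξ ≤ e β α}))).Finite :=
        (((a.finite_toSet.prod a.finite_toSet).prod h1).image _)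
      refine h2.subset ?_
      rintro ⟨m, l⟩ ⟨ξ, α, hα, β, hβ, h3, h4, h5, h6, h7⟩
      refine ⟨((α, β), ξ), ⟨⟨hα, hβ⟩, ?_⟩, ?_⟩
      · simp only [mem_iUnion]
        exact ⟨α, hα, β, hβ, h4.trans h3, by
          have h5' : e β α = m := h5
          have h7' : e β ξ ≤ m := h7
          omega⟩
      · exact Prod.ext h5 h6
    obtain ⟨C, hC⟩ := Pool.Agent.H916R3.HFC.uncountable_fiber
      (fun a : Finset W => (hfin a).toFinset) J2 hN
    set J3 := {a ∈ J2 | (hfin a).toFinset = C} with hJ3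
    have hlow : ∀ a ∈ K, ∀ c : ℕ × ℕ, ∃ q, ∀ ξ ∈ Hs e a c.1 c.2, q ≤ p ξ :=
      fun a ha c => ha c.1 c.2
    choose! q hq using hlow
    obtain ⟨J4, hJ4, hJ4u, hJ4q⟩ := prec_many hT hP C (fun c a => q a c) J3 hC
    obtain ⟨b, hb, hbE⟩ := pick hW hJ4u R (fun i hi j hj hij => hR2 i (hJ4 hi).1.1 j
      (hJ4 hj).1.1 hij)
    -- the exceptional set
    set E : Set W := (⋃ β ∈ b, ⋃ β' ∈ b, {ξ | ξ < β ∧ ξ < β' ∧ e β ξ ≠ e β' ξ}) ∪
      ⋃ β ∈ b, {ξ | ξ < β ∧ e β ξ < N} with hE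
    have hEf : E.Finite := by
      refine Set.Finite.union ?_ ?_
      · exact Set.Finite.biUnion b.finite_toSet fun β _ =>
          Set.Finite.biUnion b.finite_toSet fun β' _ => he2 β β'
      · refine Set.Finite.biUnion b.finite_toSet fun β _ => ?_
        refine Set.Finite.of_finite_image (f := e β)
          ((Set.finite_Iio N).subset ?_) ((he1 β).mono fun ξ hξ => hξ.1)
        rintro _ ⟨ξ, hξ, rfl⟩
        exact hξ.2
    obtain ⟨a, ha, hab, hord, haE⟩ := hbE E hEf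
    have ha3 : a ∈ J3 := hJ4 ha
    have hb3 : b ∈ J3 := hJ4 hb
    have haR := hR1 a ha3.1.1
    have hbR := hR1 b hb3.1.1
    refine ⟨a, hJ1 ha3.1.1, b, hJ1 hb3.1.1, hab, ?_⟩
    -- pairs in the union
    have hpair : ∀ α ∈ a ∪ b, ∀ β ∈ a ∪ b, α < β →
        (α ∈ a ∧ β ∈ a) ∨ (α ∈ b ∧ β ∈ b) ∨ (α ∈ a ∧ α ∉ R ∧ β ∈ b ∧ β ∉ R) := by
      intro α hα β hβ hαβ
      rcases Finset.mem_union.1 hα with h1 | h1 <;> rcases Finset.mem_union.1 hβ with h2 | h2
      · exact Or.inl ⟨h1, h2⟩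
      · by_cases h3 : α ∈ R
        · exact Or.inr (Or.inl ⟨hbR h3, h2⟩)
        · by_cases h4 : β ∈ R
          · exact Or.inl ⟨h1, haR h4⟩
          · exact Or.inr (Or.inr ⟨h1, h3, h2, h4⟩)
      · by_cases h3 : α ∈ R
        · exact Or.inl ⟨haR h3, h2⟩
        · by_cases h4 : β ∈ R
          · exact Or.inr (Or.inl ⟨h1, hbR h4⟩)
          · exact absurd (hord β h2 h4 α h1 h3) (not_lt.2 hαβ.le)
      · exact Or.inr (Or.inl ⟨h1, h2⟩)
    intro m l
    by_cases hm : m < N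
    · have hsub : ∀ ξ ∈ Hs e (↑(a ∪ b) : Set W) m l, ξ ∈ Hs e a m l ∨ ξ ∈ Hs e b m l := by
        rintro ξ ⟨α, hα, β, hβ, h3, h4, h5, h6, h7⟩
        rcases hpair α (by exact_mod_cast hα) β (by exact_mod_cast hβ) h3 with h8 | h8 | h8
        · exact Or.inl ⟨α, h8.1, β, h8.2, h3, h4, h5, h6, h7⟩
        · exact Or.inr ⟨α, h8.1, β, h8.2, h3, h4, h5, h6, h7⟩
        · exfalso
          apply haE α h8.1 h8.2.1
          refine Or.inr (mem_biUnion (show β ∈ b from h8.2.2.1) ⟨h3, ?_⟩)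
          rw [h5]; exact hm
      by_cases hc : (m, l) ∈ C
      · obtain ⟨r, hr⟩ := hJ4q (m, l) hc {a, b} (by
          intro x hx
          simp only [Finset.coe_insert, Finset.coe_singleton, mem_insert_iff,
            mem_singleton_iff] at hx
          rcases hx with rfl | rfl
          · exact ha
          · exact hb)
        refine ⟨r, ?_⟩
        intro ξ hξ
        rcases hsub ξ hξ with h | h
        · exact (hr a (by simp)).trans (hq a (hJK (hJ1 ha3.1.1)) (m, l) ξ h)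
        · exact (hr b (by simp)).trans (hq b (hJK (hJ1 hb3.1.1)) (m, l) ξ h)
      · refine ⟨p w0, ?_⟩
        intro ξ hξ
        exfalso
        apply hc
        rcases hsub ξ hξ with h | h
        · rw [← ha3.2]
          exact (Set.Finite.mem_toFinset _).2 ⟨ξ, h⟩
        · rw [← hb3.2]
          exact (Set.Finite.mem_toFinset _).2 ⟨ξ, h⟩
    · have hsub : ∀ α ∈ a ∪ b, ∀ β ∈ a ∪ b, α < β → e β α = m →
          α ∈ a ∧ α ∉ R ∧ β ∈ b ∧ β ∉ R := by
        intro α hα β hβ h3 h5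
        rcases hpair α hα β hβ h3 with h8 | h8 | h8
        · have := hN' a ha3.1 α h8.1 β h8.2
          omega
        · have := hN' b hb3.1 α h8.1 β h8.2
          omega
        · exact h8
      by_cases hne : (Hs e (↑(a ∪ b) : Set W) m l).Nonempty
      · obtain ⟨ξ, α, hα, β, hβ, h3, h4, h5, h6, h7⟩ := hne
        refine ⟨p ξ, ?_⟩
        rintro ξ' ⟨α', hα', β', hβ', h3', h4', h5', h6', h7'⟩
        have h8 := hsub α (by exact_mod_cast hα) β (by exact_mod_cast hβ) h3 h5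
        have h8' := hsub α' (by exact_mod_cast hα') β' (by exact_mod_cast hβ') h3' h5'
        have h9 : α < β' := hord α h8.1 h8.2.1 β' h8'.2.2.1 h8'.2.2.2
        have h10 : e β α = e β' α := by
          by_contra h
          apply haE α h8.1 h8.2.1
          exact Or.inl (mem_biUnion (show β ∈ b from h8.2.2.1)
            (mem_biUnion (show β' ∈ b from h8'.2.2.1) ⟨h3, h9, h⟩))
        have h11 : α = α' := he1 β' h9 h3' (by rw [← h10, h5, h5'])
        subst h11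
        have h12 : ξ = ξ' := he1 α h4 h4' (by rw [h6, h6'])
        rw [h12]
      · exact ⟨p w0, fun ξ hξ => absurd ⟨ξ, hξ⟩ hne⟩
  obtain ⟨X, -, hXu, hX⟩ := prec_finset hT K hdown hccc univ hWu (by
    intro s _ m l
    refine ⟨p w0, ?_⟩
    rintro ξ ⟨α, hα, β, hβ, h3, -⟩
    simp only [Finset.coe_singleton, mem_singleton_iff] at hα hβ
    rw [hα, hβ] at h3
    exact absurd h3 (lt_irrefl _))
  have hcover : ∀ ξ : W, ∃ c : ℕ × ℕ, ξ ∈ Hs e X c.1 c.2 := by
    intro ξ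
    have hXξ : ¬ (X ∩ Ioi ξ).Countable := by
      intro h
      apply hXu
      have h1 : (Iic ξ).Countable := by
        rw [← Iio_insert]
        exact (hW ξ).insert ξ
      refine (h.union h1).mono ?_
      intro x hx
      by_cases h2 : ξ < x
      · exact Or.inl ⟨hx, h2⟩
      · exact Or.inr (not_lt.1 h2)
    have hinf : (X ∩ Ioi ξ).Infinite := fun h => hXξ h.countable
    obtain ⟨Y, hY1, hY2, hY3⟩ : ∃ Y ⊆ X ∩ Ioi ξ, Y.Countable ∧ Y.Infinite := by
      have := hinf.to_subtype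
      refine ⟨range fun n => (Infinite.natEmbedding (X ∩ Ioi ξ : Set W) n).1, ?_,
        countable_range _, ?_⟩
      · rintro _ ⟨n, rfl⟩
        exact (Infinite.natEmbedding (X ∩ Ioi ξ : Set W) n).2
      · exact Set.infinite_range_of_injective fun m n h =>
          (Infinite.natEmbedding (X ∩ Ioi ξ : Set W)).injective (Subtype.ext h)
    obtain ⟨β, hβ, hβY⟩ := exists_above hW hXu hY2
    obtain ⟨α, hα, hαe⟩ : ∃ α ∈ Y, e β ξ ≤ e β α := by
      by_contra hcon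
      push Not at hcon
      apply hY3
      refine Set.Finite.of_finite_image (f := e β)
        ((Set.finite_Iio (e β ξ)).subset ?_) ((he1 β).mono fun ξ hξ => hβY ξ hξ)
      rintro _ ⟨ζ, hζ, rfl⟩
      exact hcon ζ hζ
    exact ⟨(e β α, e α ξ), α, (hY1 hα).1, β, hβ, hβY α hα, (hY1 hα).2, rfl, rfl, hαe⟩
  choose c hc using hcover
  refine ⟨fun ξ => Encodable.encode (c ξ), ?_⟩
  intro n F hF
  by_cases hFe : F = ∅
  · subst hFe
    exact ⟨p w0, by simp⟩
  obtain ⟨ξ0, hξ0⟩ := Finset.nonempty_iff_ne_empty.2 hFe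
  have hc0 : ∀ ξ ∈ F, c ξ = c ξ0 := by
    intro ξ hξ
    exact Encodable.encode_injective ((hF ξ hξ).trans (hF ξ0 hξ0).symm)
  -- a finite subset of X
  have h1 : ∀ ξ ∈ F, ∃ α ∈ X, ∃ β ∈ X, α < β ∧ ξ < α ∧ e β α = (c ξ0).1 ∧ e α ξ = (c ξ0).2 ∧
      e β ξ ≤ (c ξ0).1 := by
    intro ξ hξ
    have := hc ξ
    rw [hc0 ξ hξ] at this
    exact this
  choose! A hA B hB h2 using h1
  have h3 := hX (F.image A ∪ F.image B) (by
    intro x hx
    simp only [Finset.coe_union, Finset.coe_image, mem_union, mem_image, Finset.mem_coe] at hx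
    rcases hx with ⟨ξ, hξ, rfl⟩ | ⟨ξ, hξ, rfl⟩
    · exact hA ξ hξ
    · exact hB ξ hξ) (c ξ0).1 (c ξ0).2
  obtain ⟨q, hq⟩ := h3
  refine ⟨q, fun ξ hξ => hq ξ ⟨A ξ, ?_, B ξ, ?_, h2 ξ hξ⟩⟩
  · simp only [Finset.coe_union, Finset.coe_image, mem_union, mem_image, Finset.mem_coe]
    exact Or.inl ⟨ξ, hξ, rfl⟩
  · simp only [Finset.coe_union, Finset.coe_image, mem_union, mem_image, Finset.mem_coe]
    exact Or.inr ⟨ξ, hξ, rfl⟩

end Main

end Pool.Agent.TH576.TAM
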