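import Mathlib
import Pool.Agent.TH576.TAM.SigmaC

/-!
# (TAM) implies that `ω₁` many functions are bounded
-/

set_option autoImplicit false

namespace Pool.Agent.TH576.TAM

open Set Filter

universe u

/-- countable families of functions are bounded -/
theorem countable_bound {ι : Type*} [Countable ι] (G : ι → ℕ → ℕ) (f0 : ℕ → ℕ) :
    ∃ h : ℕ → ℕ, Monotone h ∧ (∀ i, ∀ᶠ n in atTop, G i n ≤ h n) ∧ ∀ n, f0 n ≤ h n := by
  classical
  rcases isEmpty_or_nonempty ι with hι | hι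
  · refine ⟨fun n => ∑ k ∈ Finset.range (n + 1), f0 k, ?_, fun i => (hι.false i).elim, ?_⟩
    · intro m n hmn
      exact Finset.sum_le_sum_of_subset (Finset.range_mono (by omega))
    · intro n
      exact Finset.single_le_sum (f := f0) (fun _ _ => Nat.zero_le _) (Finset.self_mem_range_succ n)
  · obtain ⟨s, hs⟩ := exists_surjective_nat ι
    let h0 : ℕ → ℕ := fun n => f0 n + ∑ m ∈ Finset.range (n + 1), G (s m) n
    have hh : ∀ n, h0 n ≤ ∑ k ∈ Finset.range (n + 1), h0 k := fun n =>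
      Finset.single_le_sum (f := h0) (fun _ _ => Nat.zero_le _) (Finset.self_mem_range_succ n)
    refine ⟨fun n => ∑ k ∈ Finset.range (n + 1), h0 k, ?_, ?_, ?_⟩
    · intro m n hmn
      exact Finset.sum_le_sum_of_subset (Finset.range_mono (by omega))
    · intro i
      obtain ⟨m, rfl⟩ := hs i
      filter_upwards [eventually_ge_atTop m] with n hn
      refine le_trans ?_ (hh n)
      refine le_trans ?_ (Nat.le_add_left _ _)
      exact Finset.single_le_sum (f := fun m => G (s m) n) (fun _ _ => Nat.zero_le _)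
        (Finset.mem_range.2 (by omega))
    · intro n
      exact le_trans (Nat.le_add_right _ _) (hh n)

section

variable {W : Type u} [LinearOrder W]

theorem exists_above_root (hW : ∀ a : W, (Iio a).Countable) {J : Set (Finset W)}
    (hJ : ¬ J.Countable)
    (R : Finset W) (hR : ∀ i ∈ J, ∀ j ∈ J, i ≠ j → ∀ t ∈ i, t ∈ j → t ∈ R) {C : Set W}
    (hC : C.Countable) : ∃ b ∈ J, ∀ t ∈ b, t ∉ R → ∀ c ∈ C, c < t := by
  classical
  have hD : (⋃ c ∈ C, Iic c).Countable := hC.biUnion fun c _ => by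
    rw [← Iio_insert]
    exact (hW c).insert c
  have hbad : {b ∈ J | ∃ t ∈ b, t ∉ R ∧ t ∈ ⋃ c ∈ C, Iic c}.Countable := by
    refine (hD.biUnion (t := fun t _ => {b ∈ J | t ∈ b ∧ t ∉ R}) fun t _ => ?_).mono ?_
    · refine Set.Subsingleton.countable ?_
      rintro b ⟨hb, h1, h2⟩ b' ⟨hb', h1', -⟩
      by_contra hne
      exact h2 (hR b hb b' hb' hne t h1 h1')
    · rintro b ⟨hb, ⟨t, h1, h2, h3⟩⟩
      exact mem_biUnion h3 ⟨hb, h1, h2⟩
  by_contra hcon
  push Not at hcon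
  apply hJ
  refine hbad.mono ?_
  intro b hb
  obtain ⟨t, h1, h2, c, h3, h4⟩ := hcon b hb
  exact ⟨hb, t, h1, h2, mem_biUnion h3 h4⟩

variable [WellFoundedLT W]

/-- a `≤*`-increasing family of monotone functions above a given family -/
theorem exists_increasing (hW : ∀ a : W, (Iio a).Countable) (f : W → ℕ → ℕ) :
    ∃ g : W → ℕ → ℕ, (∀ w, Monotone (g w)) ∧ (∀ v w, v < w → ∀ᶠ n in atTop, g v n ≤ g w n) ∧
      ∀ w n, f w n ≤ g w n := by
  classical
  have hex : ∀ (w : W) (G : (v : W) → v < w → ℕ → ℕ), ∃ h : ℕ → ℕ, Monotone h ∧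
      (∀ (v : W) (hv : v < w), ∀ᶠ n in atTop, G v hv n ≤ h n) ∧ ∀ n, f w n ≤ h n := by
    intro w G
    have : Countable (Iio w) := (hW w).to_subtype
    obtain ⟨h, h1, h2, h3⟩ := countable_bound (fun v : Iio w => G v.1 v.2) (f w)
    exact ⟨h, h1, fun v hv => h2 ⟨v, hv⟩, h3⟩
  choose F hF using hex
  let g : W → ℕ → ℕ := WellFounded.fix (wellFounded_lt) F
  have hg : ∀ w, g w = F w (fun v _ => g v) := fun w => WellFounded.fix_eq _ _ _
  refine ⟨g, ?_, ?_, ?_⟩
  · intro w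
    rw [hg]
    exact (hF w _).1
  · intro v w hvw
    have := (hF w (fun v _ => g v)).2.1 v hvw
    rw [hg w]
    exact this
  · intro w n
    rw [hg]
    exact (hF w _).2.2 n

/-- (TAM) implies that families of functions indexed by `ω₁` are bounded. -/
theorem bounded (hT : TAM.{u}) (hW : ∀ a : W, (Iio a).Countable)
    (hWu : ¬ (univ : Set W).Countable) (f : W → ℕ → ℕ) :
    ∃ h : ℕ → ℕ, ∀ w, ∀ᶠ n in atTop, f w n ≤ h n := by
  classical
  by_contra hcon
  push Not at hcon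
  obtain ⟨g, hg1, hg2, hg3⟩ := exists_increasing hW f
  -- no function bounds cofinally many `g w`
  have hub : ∀ h : ℕ → ℕ, ∀ X : Set W, ¬ X.Countable → ∃ w ∈ X, ¬ ∀ᶠ n in atTop, g w n ≤ h n := by
    intro h X hX
    by_contra hcon2
    push Not at hcon2
    obtain ⟨w, hw⟩ := hcon h
    obtain ⟨x, hx, hwx⟩ := exists_above hW hX (countable_singleton w)
    apply hw
    filter_upwards [hg2 w x (hwx w rfl), hcon2 x hx] with n h1 h2
    exact not_lt.2 ((hg3 w n).trans (h1.trans h2))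
  set K : Set (Finset W) := {a | ∀ α ∈ a, ∀ β ∈ a, α < β → ∃ n, g β n < g α n} with hK
  have hdown : ∀ F ∈ K, ∀ G ⊆ F, G ∈ K := by
    intro F hF G hG α hα β hβ h
    exact hF α (hG hα) β (hG hβ) h
  have hccc : ∀ J ⊆ K, ¬ J.Countable → ∃ a ∈ J, ∃ b ∈ J, a ≠ b ∧ a ∪ b ∈ K := by
    intro J hJK hJ
    obtain ⟨J0, R, hJ0, hJ0u, hR1, hR2⟩ := Pool.Agent.H916R3.HFC.delta_system
      (fun a : Finset W => a) J hJ
    set J1 := J0 \ {R} with hJ1
    have hJ1u : ¬ J1.Countable := by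
      intro h
      apply hJ0u
      refine (h.union (countable_singleton R)).mono ?_
      intro a ha
      by_cases h : a = R
      · exact Or.inr h
      · exact Or.inl ⟨ha, h⟩
    have hR2' : ∀ i ∈ J1, ∀ j ∈ J1, i ≠ j → ∀ t ∈ i, t ∈ j → t ∈ R := fun i hi j hj =>
      hR2 i hi.1 j hj.1
    have hne : ∀ a ∈ J1, ∃ t ∈ a, t ∉ R := by
      intro a ha
      by_contra h
      push Not at h
      exact ha.2 (Finset.Subset.antisymm h (hR1 a ha.1))
    obtain ⟨n, hn⟩ : ∃ n, ∀ v : ℕ, ∃ a ∈ J1, ∀ α ∈ a, α ∉ R → v < g α n := by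
      by_contra hcon3
      push Not at hcon3
      choose h hh using hcon3
      -- every `g w` is bounded by `h`
      obtain ⟨w, -, hw⟩ := hub h univ hWu
      apply hw
      obtain ⟨b, hb, hb2⟩ := exists_above_root hW hJ1u R hR2' (countable_singleton w)
      have h1 : ∀ᶠ n in atTop, ∀ α ∈ b, α ∉ R → g w n ≤ g α n := by
        rw [Filter.eventually_all_finset]
        intro α hα
        by_cases hαR : α ∈ R
        · exact Filter.Eventually.of_forall fun n h => absurd hαR h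
        · filter_upwards [hg2 w α (hb2 α hα hαR w rfl)] with n h2 _
          exact h2
      filter_upwards [h1] with n h2
      obtain ⟨α, hα, hαR, h3⟩ := hh n b hb
      exact (h2 α hα hαR).trans h3
    choose a ha1 ha2 using hn
    obtain ⟨b, hb, hb2⟩ := exists_above_root hW hJ1u R hR2'
      (countable_iUnion fun v => (a v).countable_toSet)
    set v := b.sup fun β => g β n with hv
    refine ⟨a v, hJ0 (ha1 v).1, b, hJ0 hb.1, ?_, ?_⟩
    · intro h
      obtain ⟨t, ht, htR⟩ := hne b hb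
      exact lt_irrefl t (hb2 t ht htR t (mem_iUnion.2 ⟨v, by rw [h]; exact ht⟩))
    · have haR := hR1 (a v) (ha1 v).1
      have hbR := hR1 b hb.1
      have haK := hJK (hJ0 (ha1 v).1)
      have hbK := hJK (hJ0 hb.1)
      have hcross : ∀ α ∈ a v, α ∉ R → ∀ β ∈ b, β ∉ R → α < β ∧ g β n < g α n := by
        intro α hα hαR β hβ hβR
        refine ⟨hb2 β hβ hβR α (mem_iUnion.2 ⟨v, hα⟩), ?_⟩
        exact lt_of_le_of_lt (Finset.le_sup (f := fun β => g β n) hβ) (ha2 v α hα hαR)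
      intro α hα β hβ hαβ
      rcases Finset.mem_union.1 hα with h1 | h1 <;> rcases Finset.mem_union.1 hβ with h2 | h2
      · exact haK α h1 β h2 hαβ
      · by_cases h3 : α ∈ R
        · exact hbK α (hbR h3) β h2 hαβ
        · by_cases h4 : β ∈ R
          · exact haK α h1 β (haR h4) hαβ
          · exact ⟨n, (hcross α h1 h3 β h2 h4).2⟩
      · by_cases h3 : α ∈ R
        · exact haK α (haR h3) β h2 hαβ
        · by_cases h4 : β ∈ R
          · exact hbK α h1 β (hbR h4) hαβ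
          · exact absurd (hcross β h2 h4 α h1 h3).1 (not_lt.2 hαβ.le)
      · exact hbK α h1 β h2 hαβ
  obtain ⟨X, -, hXu, hX⟩ := prec_finset hT K hdown hccc univ hWu (by
    intro s _ α hα β hβ h
    simp only [Finset.mem_singleton] at hα hβ
    rw [hα, hβ] at h
    exact absurd h (lt_irrefl _))
  have hXX : ∀ α ∈ X, ∀ β ∈ X, α < β → ∃ n, g β n < g α n := by
    intro α hα β hβ h
    refine hX {α, β} ?_ α (by simp) β (by simp) h
    intro x hx
    simp only [Finset.coe_insert, Finset.coe_singleton, mem_insert_iff, mem_singleton_iff] at hx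
    rcases hx with rfl | rfl
    · exact hα
    · exact hβ
  -- a countable dense part
  obtain ⟨x0, hx0⟩ : X.Nonempty := by
    rw [nonempty_iff_ne_empty]
    rintro rfl
    exact hXu countable_empty
  have hY : ∀ s : (Σ n : ℕ, (Fin n → ℕ)), ∃ α ∈ X,
      (∃ β ∈ X, ∀ k : Fin s.1, g β k = s.2 k) → ∀ k : Fin s.1, g α k = s.2 k := by
    intro s
    by_cases h : ∃ β ∈ X, ∀ k : Fin s.1, g β k = s.2 k
    · obtain ⟨β, h1, h2⟩ := h
      exact ⟨β, h1, fun _ => h2⟩
    · exact ⟨x0, hx0, fun h2 => absurd h2 h⟩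
  choose y hy1 hy2 using hY
  obtain ⟨γ, hγX, hγ⟩ := exists_above hW hXu (countable_range y)
  -- uniformization
  have hXγ : ¬ (X ∩ Ioi γ).Countable := by
    intro h
    apply hXu
    have h1 : (Iic γ).Countable := by
      rw [← Iio_insert]
      exact (hW γ).insert γ
    refine (h.union h1).mono ?_
    intro x hx
    by_cases h2 : γ < x
    · exact Or.inl ⟨hx, h2⟩
    · exact Or.inr (not_lt.1 h2)
  have hnβ : ∀ β : W, ∃ m : ℕ, γ < β → ∀ n ≥ m, g γ n ≤ g β n := by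
    intro β
    by_cases h : γ < β
    · obtain ⟨m, hm⟩ := eventually_atTop.1 (hg2 γ β h)
      exact ⟨m, fun _ => hm⟩
    · exact ⟨0, fun h' => absurd h' h⟩
  choose nb hnb using hnβ
  obtain ⟨s0, hs0⟩ := Pool.Agent.H916R3.HFC.uncountable_fiber
    (fun β : W => (⟨nb β, fun k => g β k⟩ : Σ n : ℕ, (Fin n → ℕ))) (X ∩ Ioi γ) hXγ
  set X1 := {β ∈ X ∩ Ioi γ | (⟨nb β, fun k => g β k⟩ : Σ n : ℕ, (Fin n → ℕ)) = s0} with hX1
  have hconst : ∀ β ∈ X1, nb β = s0.1 ∧ ∀ β' ∈ X1, ∀ k < s0.1, g β k = g β' k := by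
    rintro β ⟨hβ1, hβ2⟩
    refine ⟨by rw [← hβ2], ?_⟩
    rintro β' ⟨hβ1', hβ2'⟩ k hk
    have h3 : (⟨nb β, fun k => g β k⟩ : Σ n : ℕ, (Fin n → ℕ)) = ⟨nb β', fun k => g β' k⟩ :=
      hβ2.trans hβ2'.symm
    have h4 : nb β = nb β' := congrArg Sigma.fst h3
    have h5 : ∀ (n m : ℕ) (u : Fin n → ℕ) (w : Fin m → ℕ),
        (⟨n, u⟩ : Σ n : ℕ, (Fin n → ℕ)) = ⟨m, w⟩ → ∀ k (h : k < n) (h' : k < m),
          u ⟨k, h⟩ = w ⟨k, h'⟩ := by
      intro n m u w h k hk1 hk2
      obtain ⟨rfl, h⟩ := Sigma.mk.inj_iff.1 h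
      rw [eq_of_heq h]
    have h6 : nb β = s0.1 := by rw [← hβ2]
    exact h5 _ _ _ _ h3 k (by rw [h6]; exact hk) (by rw [← h4, h6]; exact hk)
  have hunb : ∃ n, ∀ v : ℕ, ∃ β ∈ X1, v < g β n := by
    by_contra hcon4
    push Not at hcon4
    choose h hh using hcon4
    obtain ⟨w, hw, hw2⟩ := hub h X1 hs0
    exact hw2 (Eventually.of_forall fun n => hh n w hw)
  set n1 := Nat.find hunb with hn1
  have hn1s : ∀ v : ℕ, ∃ β ∈ X1, v < g β n1 := Nat.find_spec hunb
  have hn1m : ∀ n < n1, ∃ v : ℕ, ∀ β ∈ X1, g β n ≤ v := by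
    intro n hn
    have := Nat.find_min hunb hn
    push Not at this
    exact this
  have hn01 : s0.1 ≤ n1 := by
    by_contra hlt
    rw [not_le] at hlt
    obtain ⟨β0, hβ0, -⟩ := hn1s 0
    obtain ⟨β, hβ, h1⟩ := hn1s (g β0 n1)
    have h2 := (hconst β hβ).2 β0 hβ0 n1 hlt
    omega
  choose! vb hvb using hn1m
  obtain ⟨t, ht⟩ : ∃ t : Fin n1 → ℕ, ∀ v : ℕ, ∃ β ∈ X1, (∀ k : Fin n1, g β k = t k) ∧
      v < g β n1 := by
    by_contra hcon5
    push Not at hcon5
    choose vt hvt using hcon5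
    have hfin : {t : Fin n1 → ℕ | ∀ k, t k ≤ vb k}.Finite := by
      have := Set.Finite.pi (ι := Fin n1) (κ := fun _ => ℕ) (t := fun k => Set.Iic (vb k))
        (fun k => Set.finite_Iic _)
      refine this.subset ?_
      intro t ht k _
      exact ht k
    obtain ⟨β, hβ, h1⟩ := hn1s (hfin.toFinset.sup vt)
    have h2 := hvt (fun k => g β k) β hβ (fun _ => rfl)
    have h3 : vt (fun k => g β k) ≤ hfin.toFinset.sup vt :=
      Finset.le_sup ((Set.Finite.mem_toFinset _).2 fun k => hvb k k.2 β hβ)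
    omega
  obtain ⟨β0, hβ0, hβ0t, -⟩ := ht 0
  have hα := hy2 ⟨n1, t⟩ ⟨β0, hβ0.1.1, hβ0t⟩
  set α := y ⟨n1, t⟩ with hαdef
  have hαX : α ∈ X := hy1 _
  have hαγ : α < γ := hγ α ⟨_, rfl⟩
  obtain ⟨n2, hn2⟩ := eventually_atTop.1 (hg2 α γ hαγ)
  obtain ⟨β, hβ, hβt, hβv⟩ := ht (g α (max n1 n2))
  obtain ⟨n, hn⟩ := hXX α hαX β hβ.1.1 (hαγ.trans hβ.1.2)
  apply absurd hn
  rw [not_lt]
  rcases lt_or_ge n n1 with h1 | h1
  · have h2 := hα ⟨n, h1⟩
    have h3 := hβt ⟨n, h1⟩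
    simp only at h2 h3
    omega
  · rcases le_total n (max n1 n2) with h2 | h2
    · have h3 := hg1 α h2
      have h4 := hg1 β h1
      omega
    · have h3 : g α n ≤ g γ n := hn2 n (le_trans (le_max_right _ _) h2)
      have h4 : g γ n ≤ g β n := hnb β hβ.1.2 n (by rw [(hconst β hβ).1]; omega)
      exact h3.trans h4

end

end Pool.Agent.TH576.TAM
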