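import Mathlib
import Pool.Agent.TH576.TAM.Bdd

/-!
# The combinatorial core: one branch for `ω₁` many requirements
-/

set_option autoImplicit false

namespace Pool.Agent.TH576.TAM

open Set Filter

universe u

/-- the reversed list of the first `k` values of `f` -/
def hist (f : ℕ → ℕ) : ℕ → List ℕ
  | 0 => []
  | k + 1 => f k :: hist f k

/-- finite sets of possible histories -/
def win (h : ℕ → ℕ) : ℕ → Finset (List ℕ)
  | 0 => {[]}
  | l + 1 => win h l ∪ (win h l ×ˢ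
      Finset.range (h (l + (win h l).sup fun t => Encodable.encode t) + 1)).image
        fun x => x.2 :: x.1

variable {W : Type u} [LinearOrder W] [WellFoundedLT W]

theorem core (hT : TAM.{u}) (hW : ∀ a : W, (Iio a).Countable)
    (hWu : ¬ (univ : Set W).Countable) (Good : W → List ℕ → ℕ → Prop)
    (hG : ∀ (F : Finset W) (t : List ℕ), ∃ n, ∀ ξ ∈ F, Good ξ t n) :
    ∃ f : ℕ → ℕ, ∀ ξ, ∀ᶠ k in atTop, Good ξ (hist f k) (f k) := by
  classical
  obtain ⟨e, he1, he2⟩ := exists_coh hW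
  obtain ⟨w0, -⟩ : (univ : Set W).Nonempty := by
    rw [nonempty_iff_ne_empty]
    intro h
    exact hWu (h ▸ countable_empty)
  have hWne : Nonempty W := ⟨w0⟩
  have hfinle : ∀ (β : W) (k : ℕ), {ξ | ξ < β ∧ e β ξ ≤ k}.Finite := by
    intro β k
    refine Set.Finite.of_finite_image (f := e β)
      ((Set.finite_Iic k).subset ?_) ((he1 β).mono fun ξ hξ => hξ.1)
    rintro _ ⟨ξ, hξ, rfl⟩
    exact hξ.2
  choose ν hν using hG
  let u0 : W → ℕ → ℕ := fun β k => ∑ j ∈ Finset.range (k + 1),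
    match (Encodable.decode j : Option (List ℕ)) with
    | some t => ν (hfinle β k).toFinset t
    | none => 0
  obtain ⟨h, hh⟩ := bounded hT hW hWu u0
  have hstar : ∀ β, ∀ᶠ k in atTop, ∀ t : List ℕ, Encodable.encode t ≤ k →
      ∃ n ≤ h k, ∀ ξ < β, e β ξ ≤ k → Good ξ t n := by
    intro β
    filter_upwards [hh β] with k hk t ht
    refine ⟨ν (hfinle β k).toFinset t, ?_, ?_⟩
    · refine le_trans ?_ hk
      have h1 : (match (Encodable.decode (Encodable.encode t) : Option (List ℕ)) with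
        | some t => ν (hfinle β k).toFinset t
        | none => 0) = ν (hfinle β k).toFinset t := by
        rw [Encodable.encodek]
      calc ν (hfinle β k).toFinset t = _ := h1.symm
        _ ≤ u0 β k := Finset.single_le_sum (f := fun j =>
            match (Encodable.decode j : Option (List ℕ)) with
            | some t => ν (hfinle β k).toFinset t
            | none => 0) (fun _ _ => Nat.zero_le _) (Finset.mem_range.2 (by omega))
    · intro ξ hξ hξk
      exact hν _ t ξ ((Set.Finite.mem_toFinset _).2 ⟨hξ, hξk⟩)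
  -- windows
  obtain ⟨S, κ, hκ, hS0, hS1⟩ : ∃ (S : ℕ → Finset (List ℕ)) (κ : ℕ → ℕ),
      (∀ l, κ l = l + (S l).sup fun t => Encodable.encode t) ∧ S 0 = {[]} ∧
      ∀ l, S (l + 1) = S l ∪ (S l ×ˢ Finset.range (h (κ l) + 1)).image fun x => x.2 :: x.1 := by
    refine ⟨win h, fun l => l + (win h l).sup fun t => Encodable.encode t, fun l => rfl, rfl,
      fun l => ?_⟩
    rw [win]
  have hκl : ∀ l, l ≤ κ l := fun l => by rw [hκ]; exact Nat.le_add_right _ _
  have hκS : ∀ l, ∀ t ∈ S l, Encodable.encode t ≤ κ l := by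
    intro l t ht
    rw [hκ]
    exact le_trans (Finset.le_sup (f := fun t : List ℕ => Encodable.encode t) ht)
      (Nat.le_add_left _ _)
  have hSmono : Monotone S := by
    apply monotone_nat_of_le_succ
    intro l
    rw [hS1]
    exact Finset.subset_union_left
  have hScons : ∀ l, ∀ t ∈ S l, ∀ n ≤ h (κ l), n :: t ∈ S (l + 1) := by
    intro l t ht n hn
    rw [hS1]
    apply Finset.mem_union_right
    rw [Finset.mem_image]
    exact ⟨(t, n), Finset.mem_product.2 ⟨ht, Finset.mem_range.2 (by omega)⟩, rfl⟩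
  have hκt : Tendsto κ atTop atTop := tendsto_atTop_mono hκl tendsto_id
  have hstar2 : ∀ β, ∀ᶠ l in atTop, ∀ t ∈ S l,
      ∃ n ≤ h (κ l), ∀ ξ < β, e β ξ ≤ κ l → Good ξ t n := by
    intro β
    filter_upwards [hκt.eventually (hstar β)] with l hl t ht
    exact hl t (hκS l t ht)
  -- the same for finitely many `β`
  have hstar3 : ∀ b : Finset W, ∀ᶠ l in atTop, ∀ t ∈ S l,
      ∃ n ≤ h (κ l), ∀ β ∈ b, ∀ ξ < β, e β ξ ≤ κ l → Good ξ t n := by
    intro b
    rcases b.eq_empty_or_nonempty with rfl | hb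
    · exact Eventually.of_forall fun l t _ => ⟨0, Nat.zero_le _, by simp⟩
    · set β' := b.max' hb with hβ'
      have h1 : ∀ᶠ l in atTop, ∀ β ∈ b, ∀ ξ < β, e β ξ ≤ κ l → e β' ξ ≤ κ l := by
        rw [Filter.eventually_all_finset]
        intro β hβ
        obtain ⟨m, hm⟩ := ((he2 β β').image (e β')).bddAbove
        filter_upwards [hκt.eventually (eventually_ge_atTop m)] with l hl ξ hξ hξl
        by_cases h2 : e β ξ = e β' ξ
        · rw [← h2]; exact hξl
        · have h3 : ξ < β' := hξ.trans_le (b.le_max' β hβ)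
          exact le_trans (hm ⟨ξ, ⟨hξ, h3, h2⟩, rfl⟩) hl
      filter_upwards [h1, hstar2 β'] with l h2 h3 t ht
      obtain ⟨n, hn1, hn2⟩ := h3 t ht
      refine ⟨n, hn1, fun β hβ ξ hξ hξl => hn2 ξ (hξ.trans_le (b.le_max' β hβ)) (h2 β hβ ξ hξ hξl)⟩
  set K : Set (Finset W) := {a | ∀ l, ∀ t ∈ S l, ∃ n ≤ h (κ l), ∀ β ∈ a,
    (∃ α ∈ a, α < β ∧ e β α = l) → ∀ ξ < β, e β ξ ≤ κ l → Good ξ t n} with hK
  have hdown : ∀ F ∈ K, ∀ G ⊆ F, G ∈ K := by
    intro F hF G hG l t ht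
    obtain ⟨n, hn1, hn2⟩ := hF l t ht
    refine ⟨n, hn1, ?_⟩
    rintro β hβ ⟨α, hα, h1⟩
    exact hn2 β (hG hβ) ⟨α, hG hα, h1⟩
  have hccc : ∀ J ⊆ K, ¬ J.Countable → ∃ a ∈ J, ∃ b ∈ J, a ≠ b ∧ a ∪ b ∈ K := by
    intro J hJK hJ
    obtain ⟨J1, R, hJ1, hJ1u, hR1, hR2⟩ := Pool.Agent.H916R3.HFC.delta_system
      (fun a : Finset W => a) J hJ
    obtain ⟨N, hN⟩ := Pool.Agent.H916R3.HFC.uncountable_fiber
      (fun a : Finset W => (a ×ˢ a).sup fun x => e x.2 x.1 + 1) J1 hJ1u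
    set J2 := {a ∈ J1 | ((a ×ˢ a).sup fun x => e x.2 x.1 + 1) = N} with hJ2
    have hN' : ∀ a ∈ J2, ∀ α ∈ a, ∀ β ∈ a, e β α < N := by
      intro a ha α hα β hβ
      have h1 : e β α + 1 ≤ (a ×ˢ a).sup fun x => e x.2 x.1 + 1 :=
        Finset.le_sup (f := fun x : W × W => e x.2 x.1 + 1) (b := (α, β))
          (Finset.mem_product.2 ⟨hα, hβ⟩)
      rw [ha.2] at h1
      omega
    have hch : ∀ a ∈ K, ∀ l, ∀ t ∈ S l, ∃ n ≤ h (κ l), ∀ β ∈ a,
      (∃ α ∈ a, α < β ∧ e β α = l) → ∀ ξ < β, e β ξ ≤ κ l → Good ξ t n := fun a ha => ha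
    choose! nn hnn1 hnn2 using hch
    have hcnt : Countable ((Σ l : Fin N, {t // t ∈ S (l : ℕ)}) → ℕ) := inferInstance
    obtain ⟨c, hc⟩ := @Pool.Agent.H916R3.HFC.uncountable_fiber (Finset W)
      ((Σ l : Fin N, {t // t ∈ S (l : ℕ)}) → ℕ) hcnt
      (fun (a : Finset W) (x : Σ l : Fin N, {t // t ∈ S (l : ℕ)}) => nn a x.1 x.2.1) J2 hN
    set J3 := {a ∈ J2 | (fun (x : Σ l : Fin N, {t // t ∈ S l}) => nn a x.1 x.2.1) = c} with hJ3
    have heq : ∀ a ∈ J3, ∀ b ∈ J3, ∀ l < N, ∀ t ∈ S l, nn a l t = nn b l t := by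
      intro a ha b hb l hl t ht
      have := congrFun (ha.2.trans hb.2.symm) ⟨⟨l, hl⟩, ⟨t, ht⟩⟩
      exact this
    obtain ⟨b, hb, hbE⟩ := pick hW hc R (fun i hi j hj hij => hR2 i hi.1.1 j hj.1.1 hij)
    obtain ⟨Nb, hNb⟩ := eventually_atTop.1 (hstar3 b)
    set E : Set W := ⋃ β ∈ b, {ξ | ξ < β ∧ e β ξ ≤ max N Nb} with hE
    have hEf : E.Finite := Set.Finite.biUnion b.finite_toSet fun β _ => hfinle β _
    obtain ⟨a, ha, hab, hord, haE⟩ := hbE E hEf
    have haR := hR1 a ha.1.1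
    have hbR := hR1 b hb.1.1
    have haK := hJK (hJ1 ha.1.1)
    have hbK := hJK (hJ1 hb.1.1)
    refine ⟨a, hJ1 ha.1.1, b, hJ1 hb.1.1, hab, ?_⟩
    have hpair : ∀ α ∈ a ∪ b, ∀ β ∈ a ∪ b, α < β →
        (α ∈ a ∧ β ∈ a) ∨ (α ∈ b ∧ β ∈ b) ∨ (α ∈ a ∧ β ∈ b ∧ max N Nb < e β α) := by
      intro α hα β hβ hαβ
      rcases Finset.mem_union.1 hα with h1 | h1 <;> rcases Finset.mem_union.1 hβ with h2 | h2
      · exact Or.inl ⟨h1, h2⟩
      · by_cases h3 : α ∈ R
        · exact Or.inr (Or.inl ⟨hbR h3, h2⟩)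
        · by_cases h4 : β ∈ R
          · exact Or.inl ⟨h1, haR h4⟩
          · refine Or.inr (Or.inr ⟨h1, h2, ?_⟩)
            by_contra hlt
            exact haE α h1 h3 (mem_biUnion (show β ∈ b from h2) ⟨hαβ, not_lt.1 hlt⟩)
      · by_cases h3 : α ∈ R
        · exact Or.inl ⟨haR h3, h2⟩
        · by_cases h4 : β ∈ R
          · exact Or.inr (Or.inl ⟨h1, hbR h4⟩)
          · exact absurd (hord β h2 h4 α h1 h3) (not_lt.2 hαβ.le)
      · exact Or.inr (Or.inl ⟨h1, h2⟩)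
    intro l t ht
    rcases lt_or_ge l N with hl | hl
    · refine ⟨nn a l t, hnn1 a haK l t ht, ?_⟩
      rintro β hβ ⟨α, hα, h1, h2⟩
      rcases hpair α hα β hβ h1 with h3 | h3 | h3
      · exact hnn2 a haK l t ht β h3.2 ⟨α, h3.1, h1, h2⟩
      · rw [heq a ha b hb l hl t ht]
        exact hnn2 b hbK l t ht β h3.2 ⟨α, h3.1, h1, h2⟩
      · exfalso
        have := h3.2.2
        omega
    · rcases lt_or_ge l Nb with hl2 | hl2
      · refine ⟨0, Nat.zero_le _, ?_⟩
        rintro β hβ ⟨α, hα, h1, h2⟩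
        exfalso
        rcases hpair α hα β hβ h1 with h3 | h3 | h3
        · have := hN' a ha.1 α h3.1 β h3.2
          omega
        · have := hN' b hb.1 α h3.1 β h3.2
          omega
        · have := h3.2.2
          omega
      · obtain ⟨n, hn1, hn2⟩ := hNb l hl2 t ht
        refine ⟨n, hn1, ?_⟩
        rintro β hβ ⟨α, hα, h1, h2⟩
        rcases hpair α hα β hβ h1 with h3 | h3 | h3
        · have := hN' a ha.1 α h3.1 β h3.2
          omega
        · have := hN' b hb.1 α h3.1 β h3.2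
          omega
        · exact hn2 β h3.2.1
  obtain ⟨X, -, hXu, hX⟩ := prec_finset hT K hdown hccc univ hWu (by
    intro s _ l t _
    refine ⟨0, Nat.zero_le _, ?_⟩
    rintro β hβ ⟨α, hα, h1, -⟩
    simp only [Finset.mem_singleton] at hα hβ
    rw [hα, hβ] at h1
    exact absurd h1 (lt_irrefl _))
  -- compactness
  have hcomp : ∀ l, ∀ t ∈ S l, ∃ n ≤ h (κ l), ∀ β ∈ X,
      (∃ α ∈ X, α < β ∧ e β α = l) → ∀ ξ < β, e β ξ ≤ κ l → Good ξ t n := by
    intro l t ht
    by_contra hcon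
    push Not at hcon
    choose! B hB1 hB2 hB3 using hcon
    choose! A hA1 hA2 using hB2
    obtain ⟨n, hn1, hn2⟩ := hX ((Finset.range (h (κ l) + 1)).image B ∪
      (Finset.range (h (κ l) + 1)).image A) (by
        intro x hx
        simp only [Finset.coe_union, Finset.coe_image, mem_union, mem_image, Finset.mem_coe,
          Finset.mem_range] at hx
        rcases hx with ⟨n, hn, rfl⟩ | ⟨n, hn, rfl⟩
        · exact hB1 n (by omega)
        · exact hA1 n (by omega)) l t ht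
    obtain ⟨ξ, h1, h2, h3⟩ := hB3 n hn1
    have hnr : n ∈ Finset.range (h (κ l) + 1) := Finset.mem_range.2 (by omega)
    exact h3 (hn2 (B n) (Finset.mem_union_left _ (Finset.mem_image_of_mem _ hnr))
      ⟨A n, Finset.mem_union_right _ (Finset.mem_image_of_mem _ hnr), hA2 n hn1⟩ ξ h1 h2)
  choose! g hg1 hg2 using hcomp
  -- the infinite set of levels
  obtain ⟨Y, hY1, hY2, hY3⟩ : ∃ Y ⊆ X, Y.Countable ∧ Y.Infinite := by
    have hinf : X.Infinite := fun h => hXu h.countable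
    have := hinf.to_subtype
    refine ⟨range fun n => (Infinite.natEmbedding X n).1, ?_, countable_range _, ?_⟩
    · rintro _ ⟨n, rfl⟩
      exact (Infinite.natEmbedding X n).2
    · exact Set.infinite_range_of_injective fun m n h =>
        (Infinite.natEmbedding X).injective (Subtype.ext h)
  obtain ⟨β0, hβ0X, hβ0⟩ := exists_above hW hXu hY2
  set E0 : Set ℕ := e β0 '' Y with hE0
  have hE0i : E0.Infinite := hY3.image ((he1 β0).mono fun y hy => hβ0 y hy)
  set L : ℕ → ℕ := Nat.nth (fun l => l ∈ E0) with hL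
  have hLmem : ∀ i, L i ∈ E0 := fun i => Nat.nth_mem_of_infinite hE0i i
  have hLmono : StrictMono L := Nat.nth_strictMono hE0i
  let tt : ℕ → List ℕ := fun i => Nat.rec [] (fun i t => g (L i) t :: t) i
  have htt0 : tt 0 = [] := rfl
  have htt1 : ∀ i, tt (i + 1) = g (L i) (tt i) :: tt i := fun i => rfl
  have httS : ∀ i, tt i ∈ S (L i) := by
    intro i
    induction i with
    | zero =>
      apply hSmono (Nat.zero_le _)
      rw [hS0, htt0]
      simp
    | succ i ih =>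
      rw [htt1]
      exact hSmono (Nat.succ_le_of_lt (hLmono (Nat.lt_succ_self i)))
        (hScons (L i) (tt i) ih _ (hg1 (L i) (tt i) ih))
  set f : ℕ → ℕ := fun i => g (L i) (tt i) with hf
  have hhist : ∀ i, hist f i = tt i := by
    intro i
    induction i with
    | zero => rfl
    | succ i ih => rw [hist, ih, htt1]
  refine ⟨f, ?_⟩
  intro ξ
  obtain ⟨β, hβX, hβ⟩ := exists_above hW hXu ((countable_singleton ξ).insert β0)
  have hβξ : ξ < β := hβ ξ (by simp)
  have hββ0 : β0 < β := hβ β0 (by simp)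
  have hbad : (e β0 '' {ζ | ζ < β ∧ ζ < β0 ∧ e β ζ ≠ e β0 ζ}).Finite := (he2 β β0).image _
  have h1 : ∀ᶠ i in atTop, L i ∉ e β0 '' {ζ | ζ < β ∧ ζ < β0 ∧ e β ζ ≠ e β0 ζ} := by
    obtain ⟨m, hm⟩ := hbad.bddAbove
    filter_upwards [hLmono.tendsto_atTop.eventually (eventually_gt_atTop m)] with i hi hcon
    exact absurd (hm hcon) (not_le.2 hi)
  have h2 : ∀ᶠ i in atTop, e β ξ ≤ κ (L i) :=
    (hκt.comp hLmono.tendsto_atTop).eventually (eventually_ge_atTop _)
  filter_upwards [h1, h2] with i hi1 hi2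
  rw [hhist]
  obtain ⟨α, hα, hαL⟩ := hLmem i
  have hα0 : α < β0 := hβ0 α hα
  have hαβ : α < β := hα0.trans hββ0
  have hαe : e β α = L i := by
    by_contra hne
    apply hi1
    exact ⟨α, ⟨hαβ, hα0, fun h => hne (h.trans hαL)⟩, hαL⟩
  exact hg2 (L i) (tt i) (httS i) β hβX ⟨α, hY1 hα, hαβ, hαe⟩ ξ hβξ hi2

end Pool.Agent.TH576.TAM
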