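import Mathlib
import Pool.Agent.TH576.TAM.Core

/-!
# (TAM) implies Martin's axiom for `ω₁` many dense subsets of posets of size at most `ℵ₁`
-/

set_option autoImplicit false

namespace Pool.Agent.TH576.TAM

open Set Filter

universe u

variable {W : Type u} [LinearOrder W] [WellFoundedLT W]

section

variable {P : Type u} [Preorder P] (x0 : P) (D : W → Set P) (col : P → ℕ)

open Classical in
/-- the conditions attached to histories -/
noncomputable def pp (ξ : W) : List ℕ → P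
  | [] => x0
  | n :: t => if h : ∃ y, y ≤ pp ξ t ∧ y ∈ D ξ ∧ col y = n then h.choose
      else if h : ∃ y, col y = n then h.choose else x0

end

theorem ma (hT : TAM.{u}) (hW : ∀ a : W, (Iio a).Countable)
    (hWu : ¬ (univ : Set W).Countable) {P : Type u} [Preorder P] (hP : PCCC P) (p : W → P)
    (hp : Function.Surjective p) (D : W → Set P) (hD : ∀ ξ x, ∃ y ∈ D ξ, y ≤ x)
    (hDo : ∀ ξ, ∀ y ∈ D ξ, ∀ z ≤ y, z ∈ D ξ) :
    ∃ G : Set P, (∀ F : Finset P, (F : Set P) ⊆ G → ∃ q, ∀ x ∈ F, q ≤ x) ∧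
      ∀ ξ, (G ∩ D ξ).Nonempty := by
  classical
  obtain ⟨w0, -⟩ : (univ : Set W).Nonempty := by
    rw [nonempty_iff_ne_empty]
    intro h
    exact hWu (h ▸ countable_empty)
  have hWne : Nonempty W := ⟨w0⟩
  obtain ⟨c, hc⟩ := sigma_centered hT hW hWu hP p
  set s : P → W := Function.surjInv hp with hs
  have hps : ∀ x, p (s x) = x := Function.surjInv_eq hp
  set col : P → ℕ := fun x => c (s x) with hcol
  have hcen : ∀ (n : ℕ) (F : Finset P), (∀ x ∈ F, col x = n) → ∃ q, ∀ x ∈ F, q ≤ x := by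
    intro n F hF
    obtain ⟨q, hq⟩ := hc n (F.image s) (by
      intro ξ hξ
      obtain ⟨x, hx, rfl⟩ := Finset.mem_image.1 hξ
      exact hF x hx)
    refine ⟨q, fun x hx => ?_⟩
    have := hq (s x) (Finset.mem_image_of_mem _ hx)
    rwa [hps] at this
  set x0 : P := p w0 with hx0
  have hpp0 : ∀ ξ, pp x0 D col ξ [] = x0 := fun ξ => rfl
  have hpp1 : ∀ ξ n t, (∃ y, y ≤ pp x0 D col ξ t ∧ y ∈ D ξ ∧ col y = n) →
      pp x0 D col ξ (n :: t) ≤ pp x0 D col ξ t ∧ pp x0 D col ξ (n :: t) ∈ D ξ ∧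
        col (pp x0 D col ξ (n :: t)) = n := by
    intro ξ n t h
    have h1 : pp x0 D col ξ (n :: t) = h.choose := by
      rw [pp, dif_pos h]
    rw [h1]
    exact h.choose_spec
  have hpp2 : ∀ ξ n t, (∃ y, col y = n) → col (pp x0 D col ξ (n :: t)) = n := by
    intro ξ n t h
    by_cases h1 : ∃ y, y ≤ pp x0 D col ξ t ∧ y ∈ D ξ ∧ col y = n
    · exact (hpp1 ξ n t h1).2.2
    · rw [pp, dif_neg h1, dif_pos h]
      exact h.choose_spec
  have hpp3 : ∀ ξ n t, (¬ ∃ y, col y = n) → pp x0 D col ξ (n :: t) = x0 := by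
    intro ξ n t h
    have h1 : ¬ ∃ y, y ≤ pp x0 D col ξ t ∧ y ∈ D ξ ∧ col y = n :=
      fun ⟨y, hy⟩ => h ⟨y, hy.2.2⟩
    rw [pp, dif_neg h1, dif_neg h]
  have hLB : ∀ (F : Finset W) (t : List ℕ), ∃ r, ∀ ξ ∈ F, r ≤ pp x0 D col ξ t := by
    intro F t
    rcases t with _ | ⟨n, t⟩
    · exact ⟨x0, fun ξ _ => le_of_eq (hpp0 ξ).symm⟩
    · by_cases h : ∃ y, col y = n
      · obtain ⟨q, hq⟩ := hcen n (F.image fun ξ => pp x0 D col ξ (n :: t)) (by
          intro x hx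
          obtain ⟨ξ, hξ, rfl⟩ := Finset.mem_image.1 hx
          exact hpp2 ξ n t h)
        exact ⟨q, fun ξ hξ => hq _ (Finset.mem_image_of_mem _ hξ)⟩
      · exact ⟨x0, fun ξ _ => le_of_eq (hpp3 ξ n t h).symm⟩
  have hdense : ∀ (F : Finset W) (r : P), ∃ y ≤ r, ∀ ξ ∈ F, y ∈ D ξ := by
    intro F
    induction F using Finset.induction_on with
    | empty => exact fun r => ⟨r, le_rfl, by simp⟩
    | insert ξ F hξ ih =>
      intro r
      obtain ⟨y, hy1, hy2⟩ := ih r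
      obtain ⟨z, hz1, hz2⟩ := hD ξ y
      refine ⟨z, hz2.trans hy1, ?_⟩
      intro ζ hζ
      rcases Finset.mem_insert.1 hζ with rfl | h
      · exact hz1
      · exact hDo ζ y (hy2 ζ h) z hz2
  obtain ⟨f, hf⟩ := core hT hW hWu (fun ξ t n => pp x0 D col ξ (n :: t) ≤ pp x0 D col ξ t ∧
    pp x0 D col ξ (n :: t) ∈ D ξ ∧ col (pp x0 D col ξ (n :: t)) = n) (by
      intro F t
      obtain ⟨r, hr⟩ := hLB F t
      obtain ⟨y, hy1, hy2⟩ := hdense F r
      exact ⟨col y, fun ξ hξ => hpp1 ξ _ t ⟨y, hy1.trans (hr ξ hξ), hy2 ξ hξ, rfl⟩⟩)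
  simp only [eventually_atTop] at hf
  choose k hk using hf
  have hdec : ∀ ξ, ∀ i ≥ k ξ, ∀ m ≥ i, pp x0 D col ξ (hist f m) ≤ pp x0 D col ξ (hist f i) := by
    intro ξ i hi m hm
    induction m, hm using Nat.le_induction with
    | base => exact le_rfl
    | succ m hm ih => exact (hk ξ m (hi.trans hm)).1.trans ih
  refine ⟨{x | ∃ ξ, ∃ i ≥ k ξ, x = pp x0 D col ξ (hist f (i + 1))}, ?_, ?_⟩
  · intro F hF
    have hF' : ∀ x ∈ F, ∃ ξ, ∃ i ≥ k ξ, x = pp x0 D col ξ (hist f (i + 1)) := fun x hx => hF hx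
    choose! ξ i hi hx using hF'
    obtain ⟨q, hq⟩ := hcen (f (F.sup i)) (F.image fun x => pp x0 D col (ξ x)
      (hist f (F.sup i + 1))) (by
        intro y hy
        obtain ⟨x, hx', rfl⟩ := Finset.mem_image.1 hy
        exact (hk (ξ x) (F.sup i) ((hi x hx').trans (Finset.le_sup hx'))).2.2)
    refine ⟨q, fun x hxF => ?_⟩
    refine (hq _ (Finset.mem_image_of_mem _ hxF)).trans ?_
    conv_rhs => rw [hx x hxF]
    exact hdec (ξ x) (i x + 1) ((hi x hxF).le.trans (Nat.le_succ _)) _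
      (Nat.succ_le_succ (Finset.le_sup hxF))
  · intro ξ
    exact ⟨_, ⟨ξ, k ξ, le_rfl, rfl⟩, (hk ξ (k ξ) le_rfl).2.1⟩

end Pool.Agent.TH576.TAM
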