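import Mathlib
import Pool.Agent.TH576.TAM.MA

/-!
# First countable Čech-complete spaces under (TAM)
-/

set_option autoImplicit false

namespace Pool.Agent.TH576.TAM

open Set Filter Topology Cardinal TopologicalSpace

universe u

/-- a well order of type `ω₁` -/
theorem exists_omega1 : ∃ (W : Type u) (_ : LinearOrder W) (_ : WellFoundedLT W),
    (∀ a : W, (Iio a).Countable) ∧ ¬ (univ : Set W).Countable ∧ #W = ℵ₁ := by
  refine ⟨(ℵ₁ : Cardinal.{u}).ord.ToType, inferInstance, inferInstance, ?_, ?_, by simp⟩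
  · intro a
    rw [← Cardinal.le_aleph0_iff_set_countable, ← Order.lt_succ_iff, Cardinal.succ_aleph0]
    exact (Cardinal.mk_Iio_lt a (by simp)).trans_eq (by simp)
  · rw [← Cardinal.le_aleph0_iff_set_countable, Cardinal.mk_univ, not_le]
    simp

section Closure

variable {X : Type u} (wit : Finset (X × ℕ) → X)

/-- one step of the closing-off process -/
def stp (C : Set X) : Set X := C ∪ wit '' {F | ∀ q ∈ F, q.1 ∈ C}

theorem finsets_subset (C : Set X) [DecidableEq (X × ℕ)] :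
    {F : Finset (X × ℕ) | ∀ q ∈ F, q.1 ∈ C} ⊆
      range fun F : Finset (C × ℕ) => F.image fun q => (q.1.1, q.2) := by
  classical
  intro F hF
  refine ⟨F.attach.image fun q => (⟨q.1.1, hF q.1 q.2⟩, q.1.2), ?_⟩
  ext q
  simp only [Finset.mem_image, Finset.mem_attach, true_and, Subtype.exists]
  constructor
  · rintro ⟨a, ⟨b, hb, rfl⟩, rfl⟩
    exact hb
  · intro hq
    exact ⟨_, ⟨q, hq, rfl⟩, rfl⟩

theorem countable_finsets {C : Set X} (hC : C.Countable) :
    {F : Finset (X × ℕ) | ∀ q ∈ F, q.1 ∈ C}.Countable := by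
  classical
  have : Countable C := hC.to_subtype
  exact (countable_range _).mono (finsets_subset C)

theorem stp_countable {C : Set X} (hC : C.Countable) : (stp wit C).Countable :=
  hC.union ((countable_finsets hC).image _)

/-- the closure of a set under witnesses -/
def clo (C : Set X) : Set X := ⋃ n : ℕ, (stp wit)^[n] C

theorem clo_countable {C : Set X} (hC : C.Countable) : (clo wit C).Countable := by
  refine countable_iUnion fun n => ?_
  induction n with
  | zero => exact hC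
  | succ n ih =>
    rw [Function.iterate_succ_apply']
    exact stp_countable wit ih

theorem subset_clo (C : Set X) : C ⊆ clo wit C := fun _ hx => mem_iUnion.2 ⟨0, hx⟩

theorem iter_mono (C : Set X) : Monotone fun n : ℕ => (stp wit)^[n] C := by
  apply monotone_nat_of_le_succ
  intro n
  rw [Function.iterate_succ_apply']
  exact subset_union_left

theorem wit_mem_clo (C : Set X) (F : Finset (X × ℕ)) (hF : ∀ q ∈ F, q.1 ∈ clo wit C) :
    wit F ∈ clo wit C := by
  classical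
  have h1 : ∀ q ∈ F, ∃ n : ℕ, q.1 ∈ (stp wit)^[n] C := fun q hq => mem_iUnion.1 (hF q hq)
  choose! n hn using h1
  refine mem_iUnion.2 ⟨F.sup n + 1, ?_⟩
  rw [Function.iterate_succ_apply']
  refine Or.inr ⟨F, ?_, rfl⟩
  intro q hq
  exact iter_mono wit C (Finset.le_sup hq) (hn q hq)

end Closure

/-- a copy of a type -/
structure Box (α : Type u) where
  /-- the underlying element -/
  val : α

/-- The main topological statement, for an arbitrary compactification. -/
theorem separable_aux (hT : TAM.{u}) {X K : Type u} [TopologicalSpace X] [TopologicalSpace K]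
    [CompactSpace K] [T2Space K] [FirstCountableTopology X] (j : X → K) (hj : IsEmbedding j)
    (hG : IsGδ (range j)) (hccc : CCC X) : SeparableSpace X := by
  classical
  have hreg : RegularSpace X := hj.isInducing.regularSpace
  by_contra hsep
  have hns : ∀ C : Set X, C.Countable → ∃ x, x ∉ closure C := by
    intro C hC
    by_contra hcon
    push Not at hcon
    exact hsep ⟨C, hC, hcon⟩
  obtain ⟨x00, -⟩ := hns ∅ countable_empty
  obtain ⟨W, iW1, iW2, hW, hWu, hWc⟩ := exists_omega1.{u}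
  -- local bases
  have hB : ∀ x : X, ∃ B : ℕ → Set X, (∀ n, IsOpen (B n) ∧ x ∈ B n) ∧
      ∀ U ∈ 𝓝 x, ∃ n, B n ⊆ U := by
    intro x
    obtain ⟨s, hs⟩ := (𝓝 x).exists_antitone_basis
    refine ⟨fun n => interior (s n), fun n => ⟨isOpen_interior, ?_⟩, ?_⟩
    · exact mem_interior_iff_mem_nhds.2 (hs.1.mem_of_mem trivial)
    · intro U hU
      obtain ⟨n, -, hn⟩ := hs.1.mem_iff.1 hU
      exact ⟨n, interior_subset.trans hn⟩
  choose B hB1 hB2 using hB
  set V : Finset (X × ℕ) → Set X := fun F => ⋂ q ∈ F, B q.1 q.2 with hV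
  have hVo : ∀ F, IsOpen (V F) := fun F => isOpen_biInter_finset fun q _ => (hB1 q.1 q.2).1
  have hVu : ∀ F G, V (F ∪ G) = V F ∩ V G := by
    intro F G
    ext x
    simp only [hV, mem_iInter, Finset.mem_union, mem_inter_iff]
    exact ⟨fun h => ⟨fun q hq => h q (Or.inl hq), fun q hq => h q (Or.inr hq)⟩,
      fun h q hq => hq.elim (h.1 q) (h.2 q)⟩
  have hVs : ∀ x n, V {(x, n)} = B x n := by
    intro x n
    simp [hV]
  have hwit : ∀ F : Finset (X × ℕ), ∃ x, (V F).Nonempty → x ∈ V F := by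
    intro F
    by_cases h : (V F).Nonempty
    · exact ⟨h.some, fun _ => h.some_mem⟩
    · exact ⟨x00, fun h' => absurd h' h⟩
  choose wit hwit using hwit
  -- points outside closures of countable sets
  have hxx : ∀ C : Set X, ∃ x, C.Countable → x ∉ closure C := by
    intro C
    by_cases h : C.Countable
    · obtain ⟨x, hx⟩ := hns C h
      exact ⟨x, fun _ => hx⟩
    · exact ⟨x00, fun h' => absurd h' h⟩
  choose xx hxx using hxx
  -- the recursion
  let Φ : (w : W) → ((v : W) → v < w → Set X) → Set X := fun w G =>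
    clo wit (insert (xx (⋃ v, ⋃ h : v < w, G v h)) (⋃ v, ⋃ h : v < w, G v h))
  let Dd : W → Set X := WellFounded.fix (wellFounded_lt) Φ
  set A : W → Set X := fun w => ⋃ v, ⋃ _ : v < w, Dd v with hA
  have hDd : ∀ w, Dd w = clo wit (insert (xx (A w)) (A w)) := fun w => WellFounded.fix_eq _ _ _
  have hDc : ∀ w, (Dd w).Countable := by
    intro w
    induction w using WellFoundedLT.induction with
    | ind w ih =>
      rw [hDd]
      refine clo_countable wit (Set.Countable.insert _ ?_)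
      exact (hW w).biUnion (t := fun v _ => Dd v) fun v hv => ih v hv
  have hAc : ∀ w, (A w).Countable := fun w =>
    (hW w).biUnion (t := fun v _ => Dd v) fun v _ => hDc v
  have hAD : ∀ w, A w ⊆ Dd w := by
    intro w
    rw [hDd]
    exact (subset_insert _ _).trans (subset_clo wit _)
  have hDA : ∀ v w, v < w → Dd v ⊆ A w := fun v w h x hx => mem_iUnion₂.2 ⟨v, h, hx⟩
  have hAmono : Monotone A := by
    intro v w hvw x hx
    obtain ⟨u, hu, hxu⟩ := mem_iUnion₂.1 hx
    exact mem_iUnion₂.2 ⟨u, hu.trans_le hvw, hxu⟩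
  have hxD : ∀ w, xx (A w) ∈ Dd w := by
    intro w
    rw [hDd]
    exact subset_clo wit _ (mem_insert _ _)
  have hDmono : Monotone Dd := by
    intro v w hvw
    rcases hvw.eq_or_lt with rfl | h
    · exact Subset.rfl
    · exact (hDA v w h).trans (hAD w)
  set D : Set X := ⋃ w, Dd w with hD
  have hWne : Nonempty W := by
    by_contra h
    rw [not_nonempty_iff] at h
    exact hWu (Set.countable_univ)
  have hDwit : ∀ F : Finset (X × ℕ), (∀ q ∈ F, q.1 ∈ D) → wit F ∈ D := by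
    intro F hF
    have h1 : ∀ q ∈ F, ∃ w, q.1 ∈ Dd w := fun q hq => mem_iUnion.1 (hF q hq)
    choose! w hw using h1
    obtain ⟨w0, hw0⟩ : ∃ w0, ∀ q ∈ F, w q ≤ w0 := by
      rcases F.eq_empty_or_nonempty with rfl | hne
      · exact ⟨hWne.some, by simp⟩
      · exact ⟨F.sup' hne w, fun q hq => Finset.le_sup' w hq⟩
    refine mem_iUnion.2 ⟨w0, ?_⟩
    have h2 : ∀ q ∈ F, q.1 ∈ Dd w0 := fun q hq => hDmono (hw0 q hq) (hw q hq)
    rw [hDd] at h2 ⊢
    exact wit_mem_clo wit _ F h2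
  have hDA' : ∀ C : Set X, C.Countable → C ⊆ D → ∃ w, C ⊆ A w := by
    intro C hC hCD
    have h1 : ∀ x ∈ C, ∃ w, x ∈ Dd w := fun x hx => mem_iUnion.1 (hCD hx)
    choose! w hw using h1
    obtain ⟨w0, -, hw0⟩ := exists_above hW hWu (hC.image w)
    exact ⟨w0, fun x hx => hDA (w x) w0 (hw0 _ ⟨x, hx, rfl⟩) (hw x hx)⟩
  -- the big poset
  let P0 : Type u := {F : Finset (X × ℕ) // (∀ q ∈ F, q.1 ∈ D) ∧ (V F).Nonempty}
  obtain ⟨v, hv⟩ : ∃ v : P0 → Set X, ∀ F, v F = V F.1 := ⟨fun F => V F.1, fun _ => rfl⟩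
  have hvne : ∀ F : P0, ∃ y ∈ v F, y ∈ D := by
    intro F
    exact ⟨wit F.1, by rw [hv]; exact hwit _ F.2.2, hDwit _ F.2.1⟩
  have hvo : ∀ F : P0, IsOpen (v F) := fun F => by rw [hv]; exact hVo _
  have hmeet : ∀ F G : P0, (v F ∩ v G).Nonempty → ∃ H : P0, v H = v F ∩ v G := by
    intro F G h
    have h1 : V (F.1 ∪ G.1) = v F ∩ v G := by
      rw [hVu, hv, hv]
    refine ⟨⟨F.1 ∪ G.1, ?_, by rw [h1]; exact h⟩, by rw [hv]; exact h1⟩
    intro q hq
    rcases Finset.mem_union.1 hq with h2 | h2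
    · exact F.2.1 q h2
    · exact G.2.1 q h2
  have hpt0 : ∀ (y : X) (n : ℕ), y ∈ D → ∃ H : P0, v H = B y n := by
    intro y n hyD
    refine ⟨⟨{(y, n)}, ?_, ?_⟩, ?_⟩
    · intro q hq
      rw [Finset.mem_singleton] at hq
      rw [hq]; exact hyD
    · rw [hVs]; exact ⟨y, (hB1 y n).2⟩
    · rw [hv]; exact hVs y n
  have hpt : ∀ (F : P0) (y : X) (n : ℕ), y ∈ v F → y ∈ D → ∃ H : P0, v H = v F ∩ B y n := by
    intro F y n hy hyD
    obtain ⟨G, hG⟩ := hpt0 y n hyD
    rw [← hG]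
    exact hmeet F G ⟨y, hy, by rw [hG]; exact (hB1 y n).2⟩
  -- refining to avoid a closed set
  have hrefine : ∀ (F : P0) (y : X), y ∈ v F → y ∈ D → ∀ w, y ∉ closure (A w) →
      ∃ H : P0, v H ⊆ v F ∧ Disjoint (closure (v H)) (closure (A w)) := by
    intro F y hy hyD w hyw
    obtain ⟨U, hU1, hU2, hU3⟩ : ∃ U, U ∈ 𝓝 y ∧ IsClosed U ∧ U ⊆ (closure (A w))ᶜ :=
      exists_mem_nhds_isClosed_subset (isClosed_closure.isOpen_compl.mem_nhds hyw)
    obtain ⟨n, hn⟩ := hB2 y U hU1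
    obtain ⟨H, hH⟩ := hpt F y n hy hyD
    refine ⟨H, by rw [hH]; exact inter_subset_left, ?_⟩
    rw [Set.disjoint_left]
    intro x hx hx'
    have h1 : closure (v H) ⊆ U := by
      rw [hH]
      exact closure_minimal (inter_subset_right.trans hn) hU2
    exact hU3 (h1 hx) hx'
  -- countable antichains
  have hanti : ∀ 𝒜 : Set P0, (∀ F ∈ 𝒜, ∀ G ∈ 𝒜, F ≠ G → v F ∩ v G = ∅) → 𝒜.Countable := by
    intro 𝒜 h𝒜
    have hinj : InjOn v 𝒜 := by
      intro F hF G hG hFG
      by_contra hne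
      have h1 := h𝒜 F hF G hG hne
      obtain ⟨y, hy, -⟩ := hvne F
      have : y ∈ v F ∩ v G := ⟨hy, hFG ▸ hy⟩
      rw [h1] at this
      exact this
    refine countable_of_injective_of_countable_image hinj (hccc _ ?_ ?_)
    · rintro _ ⟨F, -, rfl⟩
      obtain ⟨y, hy, -⟩ := hvne F
      exact ⟨hvo F, ⟨y, hy⟩⟩
    · rintro _ ⟨F, hF, rfl⟩ _ ⟨G, hG, rfl⟩ hne
      have := h𝒜 F hF G hG (fun h => hne (by rw [h]))
      exact Set.disjoint_iff_inter_eq_empty.2 this
  -- a condition below which all the sets are dense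
  obtain ⟨F0, hF0⟩ : ∃ F0 : P0, ∀ w, ∀ F : P0, v F ⊆ v F0 →
      ∃ F' : P0, v F' ⊆ v F ∧ Disjoint (closure (v F')) (closure (A w)) := by
    by_contra hcon
    push Not at hcon
    choose wc Fc hFc1 hFc2 using hcon
    obtain ⟨𝒜, h𝒜⟩ := zorn_subset {𝒜 : Set P0 | 𝒜 ⊆ range Fc ∧
      ∀ F ∈ 𝒜, ∀ G ∈ 𝒜, F ≠ G → v F ∩ v G = ∅} (by
        intro c hc hch
        refine ⟨⋃₀ c, ⟨sUnion_subset fun s hs => (hc hs).1, ?_⟩, fun s hs =>
          subset_sUnion_of_mem hs⟩
        rintro F ⟨s, hs, hF⟩ G ⟨t, ht, hG⟩ hne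
        rcases hch.total hs ht with h | h
        · exact (hc ht).2 F (h hF) G hG hne
        · exact (hc hs).2 F hF G (h hG) hne)
    have h𝒜c := hanti 𝒜 h𝒜.1.2
    -- predense
    have hpre : ∀ F : P0, ∃ G ∈ 𝒜, (v F ∩ v G).Nonempty := by
      intro F
      by_contra hcon2
      push Not at hcon2
      have h1 : Fc F ∈ 𝒜 := by
        apply h𝒜.2 (y := insert (Fc F) 𝒜) ?_ (subset_insert _ _) (mem_insert _ _)
        refine ⟨insert_subset ⟨F, rfl⟩ h𝒜.1.1, ?_⟩
        rintro G (rfl | hG) H (rfl | hH) hne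
        · exact absurd rfl hne
        · rw [← subset_empty_iff, ← hcon2 H hH]
          exact inter_subset_inter_left _ (hFc1 F)
        · rw [← subset_empty_iff, ← hcon2 G hG, inter_comm]
          exact inter_subset_inter_left _ (hFc1 F)
        · exact h𝒜.1.2 G hG H hH hne
      have h2 := hcon2 _ h1
      obtain ⟨y, hy, -⟩ := hvne (Fc F)
      have : y ∈ v F ∩ v (Fc F) := ⟨hFc1 F hy, hy⟩
      rw [h2] at this
      exact this
    have hwG : ∀ G ∈ 𝒜, ∃ w, ∀ F' : P0, v F' ⊆ v G →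
        ¬ Disjoint (closure (v F')) (closure (A w)) := by
      intro G hG
      obtain ⟨F, rfl⟩ := h𝒜.1.1 hG
      exact ⟨wc F, hFc2 F⟩
    choose! wg hwg using hwG
    obtain ⟨ws, -, hws⟩ := exists_above hW hWu (h𝒜c.image wg)
    have hxs : xx (A ws) ∉ closure (A ws) := hxx _ (hAc ws)
    have hxsD : xx (A ws) ∈ D := mem_iUnion.2 ⟨ws, hxD ws⟩
    obtain ⟨n, hn⟩ := hB2 (xx (A ws)) _ (isClosed_closure.isOpen_compl.mem_nhds hxs)
    obtain ⟨F1, hF1⟩ := hpt0 (xx (A ws)) n hxsD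
    obtain ⟨G, hG, hFG⟩ := hpre F1
    obtain ⟨H, hH⟩ := hmeet F1 G hFG
    obtain ⟨y, hy, hyD⟩ := hvne H
    rw [hH] at hy
    have hyw : y ∉ closure (A (wg G)) := by
      intro h
      have h1 : y ∈ closure (A ws) := closure_mono (hAmono (hws _ ⟨G, hG, rfl⟩).le) h
      have h2 : y ∈ B (xx (A ws)) n := hF1 ▸ hy.1
      exact hn h2 h1
    obtain ⟨H', hH'1, hH'2⟩ := hrefine G y hy.2 hyD (wg G) hyw
    exact hwg G hG H' hH'1 hH'2
  -- the poset
  let P : Type u := Box {F : P0 // v F ⊆ v F0}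
  let iP : Preorder P := Preorder.lift fun F : P => v F.1.1
  have hle : ∀ F G : P, F ≤ G ↔ v F.1.1 ⊆ v G.1.1 := fun F G => Iff.rfl
  have hPc : PCCC P := by
    intro 𝒜 h𝒜
    by_contra hcon
    push Not at hcon
    apply h𝒜
    have h1 : ((fun F : P => F.1.1) '' 𝒜 : Set P0).Countable := by
      apply hanti
      rintro _ ⟨F, hF, rfl⟩ _ ⟨G, hG, rfl⟩ hne
      by_contra h2
      obtain ⟨H, hH⟩ := hmeet F.1.1 G.1.1 (nonempty_iff_ne_empty.2 h2)
      have hH1 : v H ⊆ v F.1.1 := by rw [hH]; exact inter_subset_left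
      have hH2 : v H ⊆ v G.1.1 := by rw [hH]; exact inter_subset_right
      exact hcon F hF G hG (fun h => hne (by rw [h])) ⟨⟨H, hH1.trans F.1.2⟩⟩ hH1 hH2
    refine countable_of_injective_of_countable_image ?_ h1
    rintro ⟨F⟩ _ ⟨G⟩ _ h
    exact congrArg Box.mk (Subtype.ext h)
  -- cardinalities
  have hDcard : #D ≤ ℵ₁ := by
    refine (Cardinal.mk_iUnion_le _).trans ?_
    rw [hWc]
    refine (mul_le_mul' le_rfl (ciSup_le' fun w => (hDc w).le_aleph0)).trans ?_
    rw [Cardinal.mul_eq_left (Cardinal.aleph0_le_aleph 1) (Cardinal.aleph0_le_aleph 1)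
      Cardinal.aleph0_ne_zero]
  have hPcard : #P ≤ #W := by
    rw [hWc]
    have h1 : #(D × ℕ) ≤ ℵ₁ := by
      rw [Cardinal.mk_prod, Cardinal.lift_uzero, Cardinal.mk_nat, Cardinal.lift_aleph0]
      refine (mul_le_mul' hDcard le_rfl).trans ?_
      rw [Cardinal.mul_eq_left (Cardinal.aleph0_le_aleph 1) (Cardinal.aleph0_le_aleph 1)
        Cardinal.aleph0_ne_zero]
    have h2 : #(Finset (D × ℕ)) ≤ ℵ₁ := by
      have : Nonempty D := by
        obtain ⟨y, -, hy⟩ := hvne F0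
        exact ⟨⟨y, hy⟩⟩
      rw [Cardinal.mk_finset_of_infinite]
      exact h1
    refine le_trans ?_ h2
    refine le_trans ?_ ((Cardinal.mk_le_mk_of_subset (finsets_subset D)).trans
      Cardinal.mk_range_le)
    refine Cardinal.mk_le_of_injective (f := fun F : P =>
      (⟨F.1.1.1, F.1.1.2.1⟩ : {F : Finset (X × ℕ) | ∀ q ∈ F, q.1 ∈ D})) ?_
    rintro ⟨F⟩ ⟨G⟩ h
    have h' : F.1.1 = G.1.1 := Subtype.mk.inj h
    exact congrArg Box.mk (Subtype.ext (Subtype.ext h'))
  obtain ⟨g⟩ := (Cardinal.le_def _ _).1 hPcard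
  have hPne : Nonempty P := ⟨⟨⟨F0, Subset.rfl⟩⟩⟩
  have hsurj := Function.invFun_surjective g.injective
  obtain ⟨φ, hφ⟩ : ∃ φ : W → W × ℕ, Function.Surjective φ := by
    have h1 : #(W × ℕ) ≤ #W := by
      rw [Cardinal.mk_prod, Cardinal.lift_uzero, Cardinal.mk_nat, Cardinal.lift_aleph0, hWc,
        Cardinal.mul_eq_left (Cardinal.aleph0_le_aleph 1) (Cardinal.aleph0_le_aleph 1)
        Cardinal.aleph0_ne_zero]
    obtain ⟨g'⟩ := (Cardinal.le_def _ _).1 h1
    have : Nonempty (W × ℕ) := ⟨(hWne.some, 0)⟩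
    exact ⟨_, Function.invFun_surjective g'.injective⟩
  obtain ⟨O, hOo, hO⟩ := isGδ_iff_eq_iInter_nat.1 hG
  obtain ⟨Gf, hGf1, hGf2⟩ := ma hT hW hWu hPc (Function.invFun g) hsurj
    (fun ξ => {F : P | Disjoint (closure (v F.1.1)) (closure (A (φ ξ).1)) ∧
      closure (j '' v F.1.1) ⊆ O (φ ξ).2}) (by
        intro ξ F
        obtain ⟨F1, hF1, hF1'⟩ := hF0 (φ ξ).1 F.1.1 F.1.2
        obtain ⟨y, hy, hyD⟩ := hvne F1
        have hjy : j y ∈ O (φ ξ).2 := by
          have : j y ∈ range j := ⟨y, rfl⟩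
          rw [hO] at this
          exact mem_iInter.1 this _
        obtain ⟨U, hU1, hU2, hU3⟩ := exists_mem_nhds_isClosed_subset
          ((hOo (φ ξ).2).mem_nhds hjy)
        obtain ⟨n, hn⟩ := hB2 y (j ⁻¹' U) (hj.continuous.continuousAt.preimage_mem_nhds hU1)
        obtain ⟨H, hH⟩ := hpt F1 y n hy hyD
        have hHF1 : v H ⊆ v F1 := by rw [hH]; exact inter_subset_left
        refine ⟨⟨⟨H, hHF1.trans (hF1.trans F.1.2)⟩⟩, ⟨?_, ?_⟩, ?_⟩
        · exact hF1'.mono_left (closure_mono hHF1)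
        · refine (closure_minimal ?_ hU2).trans hU3
          rintro _ ⟨x, hx, rfl⟩
          have hx' : x ∈ v H := hx
          rw [hH] at hx'
          exact hn hx'.2
        · rw [hle]
          exact hHF1.trans hF1) (by
        rintro ξ F ⟨h1, h2⟩ H hHF
        rw [hle] at hHF
        exact ⟨h1.mono_left (closure_mono hHF),
          (closure_mono (image_mono hHF)).trans h2⟩)
  -- the point
  obtain ⟨z, hz⟩ : (⋂ F : Gf, closure (j '' (v F.1.1.1 ∩ D))).Nonempty := by
    have := isCompact_univ.inter_iInter_nonempty (fun F : Gf => closure (j '' (v F.1.1.1 ∩ D)))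
      (fun F => isClosed_closure) (by
        intro u
        obtain ⟨q, hq⟩ := hGf1 (u.image Subtype.val) (by
          intro x hx
          obtain ⟨y, -, rfl⟩ := Finset.mem_image.1 (Finset.mem_coe.1 hx)
          exact y.2)
        obtain ⟨y, hy, hyD⟩ := hvne q.1.1
        refine ⟨j y, trivial, ?_⟩
        simp only [mem_iInter]
        intro F hF
        apply subset_closure
        refine ⟨y, ⟨?_, hyD⟩, rfl⟩
        exact (hle q F.1).1 (hq F.1 (Finset.mem_image_of_mem _ hF)) hy)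
    rwa [univ_inter] at this
  rw [mem_iInter] at hz
  have hzO : z ∈ range j := by
    rw [hO, mem_iInter]
    intro n
    obtain ⟨ξ, hξ⟩ := hφ (hWne.some, n)
    obtain ⟨F, hF, -, hF2⟩ := hGf2 ξ
    rw [hξ] at hF2
    exact hF2 (closure_mono (image_mono inter_subset_left) (hz ⟨F, hF⟩))
  obtain ⟨y, rfl⟩ := hzO
  obtain ⟨F1, hF1, -⟩ := hGf2 hWne.some
  have hyD : y ∈ closure D := by
    have h1 := hz ⟨F1, hF1⟩
    rw [hj.isInducing.closure_eq_preimage_closure_image]
    exact closure_mono (image_mono inter_subset_right) h1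
  obtain ⟨s, hs1, hs2⟩ := mem_closure_iff_seq_limit.1 hyD
  obtain ⟨w, hw⟩ := hDA' (range s) (countable_range s) (by rintro _ ⟨n, rfl⟩; exact hs1 n)
  have hyA : y ∈ closure (A w) :=
    mem_closure_of_tendsto hs2 (Eventually.of_forall fun n => hw ⟨n, rfl⟩)
  obtain ⟨ξ, hξ⟩ := hφ (w, 0)
  obtain ⟨F, hF, hF2, -⟩ := hGf2 ξ
  rw [hξ] at hF2
  have hyF : y ∈ closure (v F.1.1) := by
    rw [hj.isInducing.closure_eq_preimage_closure_image]
    exact closure_mono (image_mono inter_subset_left) (hz ⟨F, hF⟩)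
  exact Set.disjoint_left.1 hF2 hyF hyA

end Pool.Agent.TH576.TAM
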